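import Mathlib

/-!
Definitions for MP_425ff5_an: smooth plurisubharmonic functions bounded from above on a domain of a
complex manifold, the core of the domain, and its maximal components.  A complex manifold of dimension
`n` is a space `M` with `[ChartedSpace (Cn n) M] [IsManifold 𝓘(ℂ, Cn n) ω M]`; smoothness and the Levi
form of a real function are read in the charts of its atlas.
-/

open scoped Manifold ContDiff Topology
open Set Filter

namespace Pool.Agent.Lib.MP_425ff5_an

/-- the model space `ℂ^n` -/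
abbrev Cn (n : ℕ) : Type := EuclideanSpace ℂ (Fin n)

/-- Four times the Levi form (complex Hessian) of `f` at `y` in the direction `v`:
`D²f(y)(v,v) + D²f(y)(iv,iv)`, where `D²f` is the real second derivative. -/
noncomputable def levi {n : ℕ} (f : Cn n → ℝ) (y v : Cn n) : ℝ :=
  fderiv ℝ (fderiv ℝ f) y v v + fderiv ℝ (fderiv ℝ f) y (Complex.I • v) (Complex.I • v)

section manifold

variable {M : Type*} [TopologicalSpace M]

/-- `φ` is `C^∞` (in the real sense) at `z`, read in every chart of the atlas around `z`. -/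
def SmoothAt (n : ℕ) [ChartedSpace (Cn n) M] (φ : M → ℝ) (z : M) : Prop :=
  ∀ e ∈ atlas (Cn n) M, z ∈ e.source → ContDiffAt ℝ ∞ (fun y => φ (e.symm y)) (e z)

/-- The Levi form of `φ` at `z` is positive semidefinite (in every chart around `z`). -/
def PshAt (n : ℕ) [ChartedSpace (Cn n) M] (φ : M → ℝ) (z : M) : Prop :=
  ∀ e ∈ atlas (Cn n) M, z ∈ e.source → ∀ v : Cn n, 0 ≤ levi (fun y => φ (e.symm y)) (e z) v

/-- The Levi form of `φ` at `z` is positive definite (in every chart around `z`). -/
def StrictPshAt (n : ℕ) [ChartedSpace (Cn n) M] (φ : M → ℝ) (z : M) : Prop :=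
  ∀ e ∈ atlas (Cn n) M, z ∈ e.source → ∀ v : Cn n, v ≠ 0 → 0 < levi (fun y => φ (e.symm y)) (e z) v

/-- `𝓕(Ω)`: smooth plurisubharmonic functions on `Ω` that are bounded from above.  (Functions on
`Ω` are represented by functions on `M`; only the values on the open set `Ω` matter.) -/
structure IsAdmissible (n : ℕ) [ChartedSpace (Cn n) M] (Ω : Set M) (φ : M → ℝ) : Prop where
  smooth : ∀ z ∈ Ω, SmoothAt n φ z
  psh : ∀ z ∈ Ω, PshAt n φ z
  bdd : ∃ C : ℝ, ∀ z ∈ Ω, φ z ≤ C

/-- The core of `Ω`: points of `Ω` at which no function of `𝓕(Ω)` is strictly plurisubharmonic. -/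
def core (n : ℕ) [ChartedSpace (Cn n) M] (Ω : Set M) : Set M :=
  {z | z ∈ Ω ∧ ∀ φ : M → ℝ, IsAdmissible n Ω φ → ¬ StrictPshAt n φ z}

/-- The family `L` of all subsets of the core on which every function of `𝓕(Ω)` is constant. -/
def constFamily (n : ℕ) [ChartedSpace (Cn n) M] (Ω : Set M) : Set (Set M) :=
  {K | K ⊆ core n Ω ∧ ∀ φ : M → ℝ, IsAdmissible n Ω φ → ∀ x ∈ K, ∀ y ∈ K, φ x = φ y}

/-- A maximal component of the core: an element of `L` maximal with respect to inclusion. -/
def IsMaximalComponent (n : ℕ) [ChartedSpace (Cn n) M] (Ω : Set M) (K : Set M) : Prop :=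
  Maximal (fun K' => K' ∈ constFamily n Ω) K

end manifold

end Pool.Agent.Lib.MP_425ff5_an
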