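import Mathlib
import Pool.Agent.Lib.MP_425ff5_an.Defs

open scoped Manifold ContDiff Topology
open Set Filter

namespace Pool.Agent.Lib.MP_425ff5_an

section calculus

variable {n : ℕ}

theorem levi_congr {f g : Cn n → ℝ} {y : Cn n} (h : f =ᶠ[𝓝 y] g) (v : Cn n) : levi f y v = levi g y v := by
  unfold levi
  have h1 : fderiv ℝ f =ᶠ[𝓝 y] fderiv ℝ g := h.fderiv
  rw [h1.fderiv_eq]

theorem contDiffAt_fderiv {f : Cn n → ℝ} {y : Cn n} (hf : ContDiffAt ℝ 2 f y) :
    DifferentiableAt ℝ (fderiv ℝ f) y := by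
  have : ContDiffAt ℝ 1 (fderiv ℝ f) y := hf.fderiv_right (m := 1) (by norm_num)
  exact this.differentiableAt (by norm_num)

theorem eventually_diff {f : Cn n → ℝ} {y : Cn n} (hf : ContDiffAt ℝ 2 f y) :
    ∀ᶠ x in 𝓝 y, DifferentiableAt ℝ f x := by
  filter_upwards [hf.eventually (by norm_num)] with x hx
  exact hx.differentiableAt (by norm_num)

theorem levi_add {f g : Cn n → ℝ} {y : Cn n} (hf : ContDiffAt ℝ 2 f y) (hg : ContDiffAt ℝ 2 g y) (v : Cn n) :
    levi (fun x => f x + g x) y v = levi f y v + levi g y v := by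
  have h1 : fderiv ℝ (fun x => f x + g x) =ᶠ[𝓝 y] fun x => fderiv ℝ f x + fderiv ℝ g x := by
    filter_upwards [eventually_diff hf, eventually_diff hg] with x hx hx'
    exact fderiv_fun_add hx hx'
  unfold levi
  rw [h1.fderiv_eq, fderiv_fun_add (contDiffAt_fderiv hf) (contDiffAt_fderiv hg)]
  simp only [add_apply]
  ring

theorem levi_const_mul {f : Cn n → ℝ} {y : Cn n} (hf : ContDiffAt ℝ 2 f y) (c : ℝ) (v : Cn n) :
    levi (fun x => c * f x) y v = c * levi f y v := by
  have h1 : fderiv ℝ (fun x => c * f x) =ᶠ[𝓝 y] fun x => c • fderiv ℝ f x := by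
    filter_upwards [eventually_diff hf] with x hx
    exact fderiv_const_mul hx c
  unfold levi
  rw [h1.fderiv_eq, fderiv_fun_const_smul (contDiffAt_fderiv hf)]
  simp only [smul_apply, smul_eq_mul]
  ring

theorem levi_const (c : ℝ) (y v : Cn n) : levi (fun _ => c) y v = 0 := by
  have h1 : fderiv ℝ (fun _ : Cn n => c) = fun _ => 0 := by
    ext x; simp
  unfold levi
  rw [h1]
  simp

/-- composition with a real function of one variable -/
theorem levi_comp_real {c : Cn n → ℝ} {y : Cn n} (hc : ContDiffAt ℝ 2 c y) {χ : ℝ → ℝ}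
    (hχ : ContDiffAt ℝ 2 χ (c y)) (v : Cn n) :
    levi (fun x => χ (c x)) y v = deriv χ (c y) * levi c y v +
      deriv (deriv χ) (c y) * ((fderiv ℝ c y v) ^ 2 + (fderiv ℝ c y (Complex.I • v)) ^ 2) := by
  have hcd := hc.differentiableAt (by norm_num : (2 : WithTop ℕ∞) ≠ 0)
  have hev : ∀ᶠ x in 𝓝 y, DifferentiableAt ℝ χ (c x) := by
    have h1 : ∀ᶠ t in 𝓝 (c y), DifferentiableAt ℝ χ t := by
      filter_upwards [hχ.eventually (by norm_num)] with t ht
      exact ht.differentiableAt (by norm_num)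
    exact hc.continuousAt.eventually h1
  have h1 : fderiv ℝ (fun x => χ (c x)) =ᶠ[𝓝 y] fun x => deriv χ (c x) • fderiv ℝ c x := by
    filter_upwards [eventually_diff hc, hev] with x hx hx'
    have := (hx'.hasDerivAt.comp_hasFDerivAt x hx.hasFDerivAt)
    exact this.fderiv
  have hχ' : HasDerivAt (deriv χ) (deriv (deriv χ) (c y)) (c y) := by
    have : ContDiffAt ℝ 1 (deriv χ) (c y) := by
      have h2 : ContDiffAt ℝ 1 (fderiv ℝ χ) (c y) := hχ.fderiv_right (m := 1) (by norm_num)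
      have h3 : deriv χ = fun t => fderiv ℝ χ t 1 := by ext t; simp
      rw [h3]
      exact h2.clm_apply contDiffAt_const
    exact (this.differentiableAt (by norm_num)).hasDerivAt
  have h2 : HasFDerivAt (fun x => deriv χ (c x)) (deriv (deriv χ) (c y) • fderiv ℝ c y) y :=
    hχ'.comp_hasFDerivAt y hcd.hasFDerivAt
  have h3 : HasFDerivAt (fun x => deriv χ (c x) • fderiv ℝ c x)
      (deriv χ (c y) • fderiv ℝ (fderiv ℝ c) y +
        (deriv (deriv χ) (c y) • fderiv ℝ c y).smulRight (fderiv ℝ c y)) y :=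
    h2.smul (contDiffAt_fderiv hc).hasFDerivAt
  unfold levi
  rw [h1.fderiv_eq, h3.fderiv]
  simp only [add_apply, smul_apply,
    ContinuousLinearMap.smulRight_apply, smul_eq_mul]
  ring

/-- invariance of the Levi form under holomorphic maps -/
theorem levi_comp_holo {f : Cn n → ℝ} {g : Cn n → Cn n} {y : Cn n} (hf : ContDiffAt ℝ 2 f (g y))
    (hg : ContDiffAt ℂ 2 g y) (v : Cn n) :
    levi (fun x => f (g x)) y v = levi f (g y) (fderiv ℂ g y v) := by
  have hgR : ContDiffAt ℝ 2 g y := hg.restrict_scalars ℝ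
  have hgd : DifferentiableAt ℂ g y := hg.differentiableAt (by norm_num)
  have hev1 : ∀ᶠ x in 𝓝 y, DifferentiableAt ℂ g x := by
    filter_upwards [hg.eventually (by norm_num)] with x hx
    exact hx.differentiableAt (by norm_num)
  have hev2 : ∀ᶠ x in 𝓝 y, DifferentiableAt ℝ f (g x) :=
    hg.continuousAt.eventually (eventually_diff hf)
  -- real derivative of g
  have hgr : fderiv ℝ g =ᶠ[𝓝 y] fun x => (fderiv ℂ g x).restrictScalars ℝ := by
    filter_upwards [hev1] with x hx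
    exact (hx.hasFDerivAt.restrictScalars ℝ).fderiv
  have hg2 : ContDiffAt ℂ 1 (fderiv ℂ g) y := hg.fderiv_right (m := 1) (by norm_num)
  have hg2d : HasFDerivAt (fderiv ℂ g) (fderiv ℂ (fderiv ℂ g) y) y :=
    (hg2.differentiableAt (by norm_num)).hasFDerivAt
  have h1 : fderiv ℝ (fun x => f (g x)) =ᶠ[𝓝 y] fun x => (fderiv ℝ f (g x)).comp (fderiv ℝ g x) := by
    filter_upwards [hev1, hev2] with x hx hx'
    exact fderiv_comp x hx' (hx.restrictScalars ℝ)
  have hd : HasFDerivAt (fderiv ℝ g) (fderiv ℝ (fderiv ℝ g) y) y := by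
    have : ContDiffAt ℝ 1 (fderiv ℝ g) y := hgR.fderiv_right (m := 1) (by norm_num)
    exact (this.differentiableAt (by norm_num)).hasFDerivAt
  have hc : HasFDerivAt (fun x => fderiv ℝ f (g x)) ((fderiv ℝ (fderiv ℝ f) (g y)).comp (fderiv ℝ g y)) y :=
    (contDiffAt_fderiv hf).hasFDerivAt.comp y (hgd.restrictScalars ℝ).hasFDerivAt
  have h3 := (hc.clm_comp hd).fderiv
  have key : ∀ w : Cn n, fderiv ℝ (fderiv ℝ (fun x => f (g x))) y w w =
      fderiv ℝ f (g y) (fderiv ℝ (fderiv ℝ g) y w w) +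
        fderiv ℝ (fderiv ℝ f) (g y) (fderiv ℝ g y w) (fderiv ℝ g y w) := by
    intro w
    rw [h1.fderiv_eq, h3]
    simp
  -- second real derivative of g in terms of the complex one
  have hsecond : ∀ w : Cn n, fderiv ℝ (fderiv ℝ g) y w w = fderiv ℂ (fderiv ℂ g) y w w := by
    intro w
    rw [hgr.fderiv_eq]
    have h4 : HasFDerivAt (fun x => (fderiv ℂ g x).restrictScalars ℝ)
        ((ContinuousLinearMap.restrictScalarsL ℂ (Cn n) (Cn n) ℝ ℝ).comp
          ((fderiv ℂ (fderiv ℂ g) y).restrictScalars ℝ)) y := by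
      exact (ContinuousLinearMap.restrictScalarsL ℂ (Cn n) (Cn n) ℝ ℝ).hasFDerivAt.comp y
        (hg2d.restrictScalars ℝ)
    rw [h4.fderiv]
    rfl
  have hfirst : fderiv ℝ g y = (fderiv ℂ g y).restrictScalars ℝ := hgr.eq_of_nhds
  unfold levi
  rw [key v, key (Complex.I • v), hsecond, hsecond, hfirst]
  have e1 : fderiv ℂ (fderiv ℂ g) y (Complex.I • v) (Complex.I • v) =
      -(fderiv ℂ (fderiv ℂ g) y v v) := by
    have e0 : fderiv ℂ (fderiv ℂ g) y (Complex.I • v) = Complex.I • fderiv ℂ (fderiv ℂ g) y v := map_smul _ _ _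
    have e00 : (Complex.I • fderiv ℂ (fderiv ℂ g) y v) (Complex.I • v) =
        Complex.I • (fderiv ℂ (fderiv ℂ g) y v (Complex.I • v)) := rfl
    rw [e0, e00, map_smul, smul_smul, Complex.I_mul_I, neg_one_smul]
  rw [e1]
  have e2 : (ContinuousLinearMap.restrictScalars ℝ (fderiv ℂ g y)) (Complex.I • v) =
      Complex.I • (fderiv ℂ g y v) := by
    simp
  rw [e2]
  simp only [map_neg, ContinuousLinearMap.coe_restrictScalars']
  ring

theorem hess_normsq_aux {F : Type*} [NormedAddCommGroup F] [InnerProductSpace ℝ F] (a y v : F) :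
    fderiv ℝ (fderiv ℝ (fun x : F => ‖x - a‖ ^ 2)) y v v = 2 * ‖v‖ ^ 2 := by
  have h1 : fderiv ℝ (fun x : F => ‖x - a‖ ^ 2) = fun x => (2 : ℝ) • (innerSL ℝ (x - a)) := by
    ext x w
    have h2 : HasFDerivAt (fun x : F => x - a) (ContinuousLinearMap.id ℝ F) x :=
      (hasFDerivAt_id x).sub_const a
    rw [(h2.norm_sq).fderiv]
    simp
  have h2 : HasFDerivAt (fun x : F => x - a) (ContinuousLinearMap.id ℝ F) y :=
    (hasFDerivAt_id y).sub_const a
  have h4 : HasFDerivAt (fun x : F => (innerSL ℝ : F →L[ℝ] F →L[ℝ] ℝ) (x - a))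
      ((innerSL ℝ : F →L[ℝ] F →L[ℝ] ℝ).comp (ContinuousLinearMap.id ℝ F)) y :=
    (innerSL ℝ : F →L[ℝ] F →L[ℝ] ℝ).hasFDerivAt.comp y h2
  have h5 := h4.const_smul (2 : ℝ)
  have h6 : HasFDerivAt (fun x : F => (2 : ℝ) • (innerSL ℝ (x - a)))
      ((2 : ℝ) • (innerSL ℝ : F →L[ℝ] F →L[ℝ] ℝ).comp (ContinuousLinearMap.id ℝ F)) y := h5
  rw [h1, h6.fderiv]
  have h7 : (innerSL ℝ v) v = ‖v‖ ^ 2 := real_inner_self_eq_norm_sq v
  simp [h7]

/-- Levi form of the squared distance to a point -/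
theorem levi_normsq (a y v : Cn n) : levi (fun x => ‖x - a‖ ^ 2) y v = 4 * ‖v‖ ^ 2 := by
  unfold levi
  rw [hess_normsq_aux a y v, hess_normsq_aux a y (Complex.I • v), norm_smul, Complex.norm_I, one_mul]
  ring

end calculus


section manifold

variable {M : Type*} [TopologicalSpace M]

variable {n : ℕ} [ChartedSpace (Cn n) M]

omit [ChartedSpace (Cn n) M] in
theorem eventually_symm {φ ψ : M → ℝ} {z : M} (h : φ =ᶠ[𝓝 z] ψ) {e : OpenPartialHomeomorph M (Cn n)}
    (hz : z ∈ e.source) : (fun y => φ (e.symm y)) =ᶠ[𝓝 (e z)] (fun y => ψ (e.symm y)) := by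
  have hc : ContinuousAt e.symm (e z) := e.continuousAt_symm (e.map_source hz)
  have h' : φ =ᶠ[𝓝 (e.symm (e z))] ψ := by rwa [e.left_inv hz]
  exact hc.eventually h'

theorem SmoothAt.congr {φ ψ : M → ℝ} {z : M} (hφ : SmoothAt n φ z) (h : φ =ᶠ[𝓝 z] ψ) : SmoothAt n ψ z := by
  intro e he hz
  exact (hφ e he hz).congr_of_eventuallyEq (eventually_symm h hz).symm

theorem PshAt.congr {φ ψ : M → ℝ} {z : M} (hφ : PshAt n φ z) (h : φ =ᶠ[𝓝 z] ψ) : PshAt n ψ z := by
  intro e he hz v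
  rw [← levi_congr (eventually_symm h hz)]
  exact hφ e he hz v

theorem StrictPshAt.congr {φ ψ : M → ℝ} {z : M} (hφ : StrictPshAt n φ z) (h : φ =ᶠ[𝓝 z] ψ) :
    StrictPshAt n ψ z := by
  intro e he hz v hv
  rw [← levi_congr (eventually_symm h hz)]
  exact hφ e he hz v hv

theorem SmoothAt.continuousAt {φ : M → ℝ} {z : M} (hφ : SmoothAt n φ z) : ContinuousAt φ z := by
  have hz := mem_chart_source (Cn n) z
  have h1 := (hφ (chartAt (Cn n) z) (chart_mem_atlas (Cn n) z) hz).continuousAt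
  have h2 : ContinuousAt (chartAt (Cn n) z) z := (chartAt (Cn n) z).continuousAt hz
  have h3 : ContinuousAt (fun x => φ ((chartAt (Cn n) z).symm ((chartAt (Cn n) z) x))) z :=
    ContinuousAt.comp (f := chartAt (Cn n) z) (g := fun y => φ ((chartAt (Cn n) z).symm y)) h1 h2
  refine h3.congr ?_
  filter_upwards [(chartAt (Cn n) z).open_source.mem_nhds hz] with x hx
  rw [(chartAt (Cn n) z).left_inv hx]

theorem SmoothAt.c2 {φ : M → ℝ} {z : M} (hφ : SmoothAt n φ z) {e : OpenPartialHomeomorph M (Cn n)}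
    (he : e ∈ atlas (Cn n) M) (hz : z ∈ e.source) : ContDiffAt ℝ 2 (fun y => φ (e.symm y)) (e z) :=
  (hφ e he hz).of_le ENat.LEInfty.out

theorem SmoothAt.add {φ ψ : M → ℝ} {z : M} (hφ : SmoothAt n φ z) (hψ : SmoothAt n ψ z) :
    SmoothAt n (fun x => φ x + ψ x) z :=
  fun e he hz => (hφ e he hz).add (hψ e he hz)

theorem SmoothAt.sub {φ ψ : M → ℝ} {z : M} (hφ : SmoothAt n φ z) (hψ : SmoothAt n ψ z) :
    SmoothAt n (fun x => φ x - ψ x) z :=
  fun e he hz => (hφ e he hz).sub (hψ e he hz)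

theorem SmoothAt.const (c : ℝ) (z : M) : SmoothAt n (fun _ => c) z :=
  fun _ _ _ => contDiffAt_const

theorem SmoothAt.const_mul {φ : M → ℝ} {z : M} (hφ : SmoothAt n φ z) (c : ℝ) :
    SmoothAt n (fun x => c * φ x) z :=
  fun e he hz => contDiffAt_const.mul (hφ e he hz)

theorem SmoothAt.comp {φ : M → ℝ} {z : M} (hφ : SmoothAt n φ z) {χ : ℝ → ℝ} (hχ : ContDiff ℝ ∞ χ) :
    SmoothAt n (fun x => χ (φ x)) z :=
  fun e he hz => hχ.contDiffAt.comp (e z) (hφ e he hz)

theorem PshAt.add {φ ψ : M → ℝ} {z : M} (hφ : SmoothAt n φ z) (hψ : SmoothAt n ψ z)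
    (pφ : PshAt n φ z) (pψ : PshAt n ψ z) : PshAt n (fun x => φ x + ψ x) z := by
  intro e he hz v
  rw [levi_add (hφ.c2 he hz) (hψ.c2 he hz)]
  exact add_nonneg (pφ e he hz v) (pψ e he hz v)

theorem PshAt.const_mul {φ : M → ℝ} {z : M} (hφ : SmoothAt n φ z) (pφ : PshAt n φ z) {c : ℝ} (hc : 0 ≤ c) :
    PshAt n (fun x => c * φ x) z := by
  intro e he hz v
  rw [levi_const_mul (hφ.c2 he hz)]
  exact mul_nonneg hc (pφ e he hz v)

theorem PshAt.const (c : ℝ) (z : M) : PshAt n (fun _ => c) z := by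
  intro e he hz v
  rw [levi_const]

theorem IsAdmissible.add {Ω : Set M} {φ ψ : M → ℝ} (hφ : IsAdmissible n Ω φ) (hψ : IsAdmissible n Ω ψ) :
    IsAdmissible n Ω (fun x => φ x + ψ x) := by
  refine ⟨fun z hz => (hφ.smooth z hz).add (hψ.smooth z hz),
    fun z hz => PshAt.add (hφ.smooth z hz) (hψ.smooth z hz) (hφ.psh z hz) (hψ.psh z hz), ?_⟩
  obtain ⟨C, hC⟩ := hφ.bdd
  obtain ⟨D, hD⟩ := hψ.bdd
  exact ⟨C + D, fun z hz => add_le_add (hC z hz) (hD z hz)⟩

theorem IsAdmissible.const (Ω : Set M) (c : ℝ) : IsAdmissible n Ω (fun _ => c) :=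
  ⟨fun z _ => SmoothAt.const c z, fun z _ => PshAt.const c z, ⟨c, fun _ _ => le_refl _⟩⟩

theorem IsAdmissible.const_mul {Ω : Set M} {φ : M → ℝ} (hφ : IsAdmissible n Ω φ) {c : ℝ} (hc : 0 ≤ c) :
    IsAdmissible n Ω (fun x => c * φ x) := by
  refine ⟨fun z hz => (hφ.smooth z hz).const_mul c,
    fun z hz => PshAt.const_mul (hφ.smooth z hz) (hφ.psh z hz) hc, ?_⟩
  obtain ⟨C, hC⟩ := hφ.bdd
  exact ⟨c * C, fun z hz => mul_le_mul_of_nonneg_left (hC z hz) hc⟩

theorem IsAdmissible.sum {Ω : Set M} {ι : Type*} (s : Finset ι) (f : ι → M → ℝ)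
    (h : ∀ i ∈ s, IsAdmissible n Ω (f i)) : IsAdmissible n Ω (fun x => ∑ i ∈ s, f i x) := by
  classical
  induction s using Finset.induction_on with
  | empty => simpa using IsAdmissible.const Ω 0
  | insert a s ha ih =>
    have h1 := ih (fun i hi => h i (Finset.mem_insert_of_mem hi))
    have h2 := h a (Finset.mem_insert_self a s)
    have := h2.add h1
    simpa [Finset.sum_insert ha] using this

/-! ### the convex gluing function -/

/-- a smooth convex nondecreasing function vanishing exactly on `(-∞,0]`, with derivative in `[0,1]` -/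
noncomputable def glueFun (t : ℝ) : ℝ := ∫ s in (0:ℝ)..t, expNegInvGlue s

theorem expNeg_cont : Continuous expNegInvGlue := (expNegInvGlue.contDiff (n := 0)).continuous

theorem glueFun_hasDerivAt (t : ℝ) : HasDerivAt glueFun (expNegInvGlue t) t :=
  intervalIntegral.integral_hasDerivAt_right (expNeg_cont.intervalIntegrable 0 t)
    expNeg_cont.aestronglyMeasurable.stronglyMeasurableAtFilter expNeg_cont.continuousAt

theorem deriv_glueFun : deriv glueFun = expNegInvGlue := funext fun t => (glueFun_hasDerivAt t).deriv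

theorem glueFun_contDiff : ContDiff ℝ ∞ glueFun := by
  rw [contDiff_infty_iff_deriv]
  refine ⟨fun t => (glueFun_hasDerivAt t).differentiableAt, ?_⟩
  rw [deriv_glueFun]
  exact expNegInvGlue.contDiff

theorem expNeg_le_one (t : ℝ) : expNegInvGlue t ≤ 1 := by
  rcases le_or_gt t 0 with h | h
  · rw [expNegInvGlue.zero_of_nonpos h]; exact zero_le_one
  · unfold expNegInvGlue
    rw [if_neg (not_le.mpr h)]
    exact Real.exp_le_one_iff.mpr (by simpa using h.le)

theorem deriv_deriv_glueFun_nonneg (t : ℝ) : 0 ≤ deriv (deriv glueFun) t := by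
  rw [deriv_glueFun]
  exact expNegInvGlue.monotone.deriv_nonneg

theorem glueFun_of_nonpos {t : ℝ} (ht : t ≤ 0) : glueFun t = 0 := by
  unfold glueFun
  rw [intervalIntegral.integral_symm]
  have : ∫ s in t..(0:ℝ), expNegInvGlue s = ∫ s in t..(0:ℝ), (0:ℝ) := by
    apply intervalIntegral.integral_congr
    intro s hs
    rw [uIcc_of_le ht] at hs
    exact expNegInvGlue.zero_of_nonpos hs.2
  rw [this]
  simp

theorem glueFun_nonneg (t : ℝ) : 0 ≤ glueFun t := by
  rcases le_or_gt t 0 with h | h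
  · rw [glueFun_of_nonpos h]
  · unfold glueFun
    exact intervalIntegral.integral_nonneg h.le (fun s _ => expNegInvGlue.nonneg s)

theorem glueFun_pos {t : ℝ} (ht : 0 < t) : 0 < glueFun t := by
  unfold glueFun
  apply intervalIntegral.intervalIntegral_pos_of_pos_on (expNeg_cont.intervalIntegrable 0 t) _ ht
  intro s hs
  exact expNegInvGlue.pos_of_pos hs.1

theorem glueFun_le {t : ℝ} (ht : 0 ≤ t) : glueFun t ≤ t := by
  unfold glueFun
  have : ∫ s in (0:ℝ)..t, expNegInvGlue s ≤ ∫ s in (0:ℝ)..t, (1:ℝ) := by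
    apply intervalIntegral.integral_mono_on ht (expNeg_cont.intervalIntegrable 0 t)
      intervalIntegrable_const
    intro s _
    exact expNeg_le_one s
  simpa using this

/-! ### gluing -/

open Classical in
/-- the glued function -/
noncomputable def glued (e : OpenPartialHomeomorph M (Cn n)) (z0 : M) (r : ℝ) (U V : M → ℝ) : M → ℝ :=
  fun z => if z ∈ e.source ∧ ‖e z - e z0‖ < r then V z + glueFun (U z - V z) else V z

omit [ChartedSpace (Cn n) M] in
theorem glued_near_ball {e : OpenPartialHomeomorph M (Cn n)} {z0 : M} {r : ℝ} {U V : M → ℝ} {z : M}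
    (hz : z ∈ e.source) (hr : ‖e z - e z0‖ < r) :
    (fun x => V x + glueFun (U x - V x)) =ᶠ[𝓝 z] glued e z0 r U V := by
  have h1 : ∀ᶠ x in 𝓝 z, x ∈ e.source := e.open_source.mem_nhds hz
  have h2 : ∀ᶠ x in 𝓝 z, ‖e x - e z0‖ < r := by
    have : ContinuousAt (fun x => ‖e x - e z0‖) z := ((e.continuousAt hz).sub continuousAt_const).norm
    exact this.eventually (Iio_mem_nhds hr)
  filter_upwards [h1, h2] with x hx hx'
  simp [glued, hx, hx']

omit [ChartedSpace (Cn n) M] in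
theorem glued_near_sphere {e : OpenPartialHomeomorph M (Cn n)} {z0 : M} {r : ℝ} {U V : M → ℝ} {z : M}
    (hU : ContinuousAt U z) (hV : ContinuousAt V z) (hlt : U z < V z) :
    V =ᶠ[𝓝 z] glued e z0 r U V := by
  have h1 : ∀ᶠ x in 𝓝 z, U x - V x < 0 := by
    have : ContinuousAt (fun x => U x - V x) z := hU.sub hV
    exact this.eventually (Iio_mem_nhds (by linarith))
  filter_upwards [h1] with x hx
  simp [glued, glueFun_of_nonpos hx.le]

omit [ChartedSpace (Cn n) M] in
theorem glued_near_outside [T2Space M] {e : OpenPartialHomeomorph M (Cn n)} {z0 : M} {r : ℝ} {U V : M → ℝ}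
    (hball : Metric.closedBall (e z0) r ⊆ e.target) {z : M}
    (hz : z ∉ e.symm '' Metric.closedBall (e z0) r) :
    V =ᶠ[𝓝 z] glued e z0 r U V := by
  have hK : IsCompact (e.symm '' Metric.closedBall (e z0) r) :=
    (isCompact_closedBall (e z0) r).image_of_continuousOn (e.continuousOn_symm.mono hball)
  filter_upwards [hK.isClosed.isOpen_compl.mem_nhds hz] with x hx
  have : ¬ (x ∈ e.source ∧ ‖e x - e z0‖ < r) := by
    rintro ⟨h1, h2⟩
    apply hx
    refine ⟨e x, ?_, e.left_inv h1⟩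
    rw [Metric.mem_closedBall, dist_eq_norm]
    exact h2.le
  simp [glued, this]

theorem PshAt.glue {U V : M → ℝ} {z : M} (sU : SmoothAt n U z) (sV : SmoothAt n V z)
    (pU : PshAt n U z) (pV : PshAt n V z) : PshAt n (fun x => V x + glueFun (U x - V x)) z := by
  intro e he hz v
  have cU := sU.c2 he hz
  have cV := sV.c2 he hz
  have cD : ContDiffAt ℝ 2 (fun y => U (e.symm y) - V (e.symm y)) (e z) := cU.sub cV
  have cχ : ContDiff ℝ 2 glueFun := glueFun_contDiff.of_le ENat.LEInfty.out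
  have cG : ContDiffAt ℝ 2 (fun y => glueFun (U (e.symm y) - V (e.symm y))) (e z) :=
    cχ.contDiffAt.comp (e z) cD
  rw [levi_add cV cG, levi_comp_real cD cχ.contDiffAt]
  have hD : levi (fun y => U (e.symm y) - V (e.symm y)) (e z) v =
      levi (fun y => U (e.symm y)) (e z) v - levi (fun y => V (e.symm y)) (e z) v := by
    have h1 : (fun y => U (e.symm y) - V (e.symm y)) = fun y => U (e.symm y) + (-1) * V (e.symm y) := by
      ext y; ring
    rw [h1, levi_add cU (contDiffAt_const.mul cV), levi_const_mul cV]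
    ring
  rw [hD]
  have a1 := pU e he hz v
  have a2 := pV e he hz v
  have a3 := deriv_deriv_glueFun_nonneg (U (e.symm (e z)) - V (e.symm (e z)))
  rw [deriv_glueFun]
  rw [deriv_glueFun] at a3
  have a4 := expNeg_le_one (U (e.symm (e z)) - V (e.symm (e z)))
  have a5 := expNegInvGlue.nonneg (U (e.symm (e z)) - V (e.symm (e z)))
  have a6 : 0 ≤ (fderiv ℝ (fun y => U (e.symm y) - V (e.symm y)) (e z) v) ^ 2 +
      (fderiv ℝ (fun y => U (e.symm y) - V (e.symm y)) (e z) (Complex.I • v)) ^ 2 := by positivity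
  have a7 := mul_nonneg a3 a6
  nlinarith [mul_nonneg a5 a1, mul_nonneg (sub_nonneg.mpr a4) a2]

theorem StrictPshAt.glue {U V : M → ℝ} {z : M} (sU : SmoothAt n U z) (sV : SmoothAt n V z)
    (pU : StrictPshAt n U z) (pV : PshAt n V z) (hlt : V z < U z) :
    StrictPshAt n (fun x => V x + glueFun (U x - V x)) z := by
  intro e he hz v hv
  have cU := sU.c2 he hz
  have cV := sV.c2 he hz
  have cD : ContDiffAt ℝ 2 (fun y => U (e.symm y) - V (e.symm y)) (e z) := cU.sub cV
  have cχ : ContDiff ℝ 2 glueFun := glueFun_contDiff.of_le ENat.LEInfty.out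
  have cG : ContDiffAt ℝ 2 (fun y => glueFun (U (e.symm y) - V (e.symm y))) (e z) :=
    cχ.contDiffAt.comp (e z) cD
  rw [levi_add cV cG, levi_comp_real cD cχ.contDiffAt]
  have hD : levi (fun y => U (e.symm y) - V (e.symm y)) (e z) v =
      levi (fun y => U (e.symm y)) (e z) v - levi (fun y => V (e.symm y)) (e z) v := by
    have h1 : (fun y => U (e.symm y) - V (e.symm y)) = fun y => U (e.symm y) + (-1) * V (e.symm y) := by
      ext y; ring
    rw [h1, levi_add cU (contDiffAt_const.mul cV), levi_const_mul cV]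
    ring
  rw [hD]
  have a1 := pU e he hz v hv
  have a2 := pV e he hz v
  have a3 := deriv_deriv_glueFun_nonneg (U (e.symm (e z)) - V (e.symm (e z)))
  rw [deriv_glueFun]
  rw [deriv_glueFun] at a3
  have a4 := expNeg_le_one (U (e.symm (e z)) - V (e.symm (e z)))
  have a5 : 0 < expNegInvGlue (U (e.symm (e z)) - V (e.symm (e z))) := by
    apply expNegInvGlue.pos_of_pos
    rw [e.left_inv hz]
    linarith
  have a6 : 0 ≤ (fderiv ℝ (fun y => U (e.symm y) - V (e.symm y)) (e z) v) ^ 2 +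
      (fderiv ℝ (fun y => U (e.symm y) - V (e.symm y)) (e z) (Complex.I • v)) ^ 2 := by positivity
  have a7 := mul_nonneg a3 a6
  nlinarith [mul_pos a5 a1, mul_nonneg (sub_nonneg.mpr a4) a2]

theorem SmoothAt.glue {U V : M → ℝ} {z : M} (sU : SmoothAt n U z) (sV : SmoothAt n V z) :
    SmoothAt n (fun x => V x + glueFun (U x - V x)) z :=
  sV.add ((sU.sub sV).comp glueFun_contDiff)

/-- The gluing lemma. -/
theorem glued_admissible [T2Space M] {Ω : Set M} {e : OpenPartialHomeomorph M (Cn n)} {z0 : M} {r : ℝ}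
    {U V : M → ℝ} (hball : Metric.closedBall (e z0) r ⊆ e.target)
    (hV : IsAdmissible n Ω V)
    (sU : ∀ z ∈ e.source, ‖e z - e z0‖ ≤ r → SmoothAt n U z)
    (pU : ∀ z ∈ e.source, ‖e z - e z0‖ < r → PshAt n U z)
    (hlt : ∀ z ∈ e.source, ‖e z - e z0‖ = r → U z < V z) :
    IsAdmissible n Ω (glued e z0 r U V) := by
  have hK : IsCompact (e.symm '' Metric.closedBall (e z0) r) :=
    (isCompact_closedBall (e z0) r).image_of_continuousOn (e.continuousOn_symm.mono hball)
  have hmemK : ∀ z, z ∈ e.symm '' Metric.closedBall (e z0) r → z ∈ e.source ∧ ‖e z - e z0‖ ≤ r := by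
    rintro z ⟨y, hy, rfl⟩
    refine ⟨e.map_target (hball hy), ?_⟩
    rw [e.right_inv (hball hy), ← dist_eq_norm]
    exact hy
  have key : ∀ z ∈ Ω, SmoothAt n (glued e z0 r U V) z ∧ PshAt n (glued e z0 r U V) z := by
    intro z hz
    by_cases hzK : z ∈ e.symm '' Metric.closedBall (e z0) r
    · obtain ⟨h1, h2⟩ := hmemK z hzK
      rcases lt_or_eq_of_le h2 with h3 | h3
      · have hn := glued_near_ball (U := U) (V := V) h1 h3
        exact ⟨((sU z h1 h2).glue (hV.smooth z hz)).congr hn,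
          (PshAt.glue (sU z h1 h2) (hV.smooth z hz) (pU z h1 h3) (hV.psh z hz)).congr hn⟩
      · have hn := glued_near_sphere (e := e) (z0 := z0) (r := r) (sU z h1 h2).continuousAt
          (hV.smooth z hz).continuousAt (hlt z h1 h3)
        exact ⟨(hV.smooth z hz).congr hn, (hV.psh z hz).congr hn⟩
    · have hn := glued_near_outside (U := U) (V := V) hball hzK
      exact ⟨(hV.smooth z hz).congr hn, (hV.psh z hz).congr hn⟩
  refine ⟨fun z hz => (key z hz).1, fun z hz => (key z hz).2, ?_⟩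
  obtain ⟨C, hC⟩ := hV.bdd
  have hcU : ContinuousOn U (e.symm '' Metric.closedBall (e z0) r) := by
    intro z hz
    obtain ⟨h1, h2⟩ := hmemK z hz
    exact (sU z h1 h2).continuousAt.continuousWithinAt
  obtain ⟨D, hD⟩ := hK.exists_bound_of_continuousOn hcU
  refine ⟨max C D, fun z hz => ?_⟩
  unfold glued
  split_ifs with h
  · have hzK : z ∈ e.symm '' Metric.closedBall (e z0) r := by
      refine ⟨e z, ?_, e.left_inv h.1⟩
      rw [Metric.mem_closedBall, dist_eq_norm]
      exact h.2.le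
    have hUD : U z ≤ D := (le_abs_self _).trans (hD z hzK)
    rcases le_or_gt (U z - V z) 0 with h4 | h4
    · rw [glueFun_of_nonpos h4, add_zero]
      exact (hC z hz).trans (le_max_left _ _)
    · have := glueFun_le h4.le
      calc V z + glueFun (U z - V z) ≤ U z := by linarith
        _ ≤ max C D := hUD.trans (le_max_right _ _)
  · exact (hC z hz).trans (le_max_left _ _)

/-! ### transition maps -/

theorem transition_contDiffAt [IsManifold 𝓘(ℂ, Cn n) ω M] {e e' : OpenPartialHomeomorph M (Cn n)}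
    (he : e ∈ atlas (Cn n) M) (he' : e' ∈ atlas (Cn n) M) {z : M} (hz : z ∈ e.source) (hz' : z ∈ e'.source) :
    ContDiffAt ℂ ω (fun y => e (e'.symm y)) (e' z) := by
  have h := (contDiffGroupoid ω 𝓘(ℂ, Cn n)).compatible he' he
  rw [contDiffGroupoid, mem_groupoid_of_pregroupoid] at h
  have h1 := h.1
  simp only [contDiffPregroupoid, modelWithCornersSelf_coe, modelWithCornersSelf_coe_symm,
    Function.id_comp, Function.comp_id, preimage_id, range_id, inter_univ] at h1
  have hmem : e' z ∈ (e'.symm.trans e).source := by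
    rw [OpenPartialHomeomorph.trans_source]
    refine ⟨e'.map_source hz', ?_⟩
    show e'.symm (e' z) ∈ e.source
    rw [e'.left_inv hz']
    exact hz
  exact h1.contDiffAt ((e'.symm.trans e).open_source.mem_nhds hmem)

/-- Levi form of a function given in the chart `e`, read in the chart `e'`. -/
theorem levi_chart [IsManifold 𝓘(ℂ, Cn n) ω M] {e e' : OpenPartialHomeomorph M (Cn n)}
    (he : e ∈ atlas (Cn n) M) (he' : e' ∈ atlas (Cn n) M) {z : M} (hz : z ∈ e.source) (hz' : z ∈ e'.source)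
    {F : Cn n → ℝ} (hF : ContDiffAt ℝ 2 F (e z)) (v : Cn n) :
    levi (fun y => F (e (e'.symm y))) (e' z) v = levi F (e z) (fderiv ℂ (fun y => e (e'.symm y)) (e' z) v) := by
  have hg : ContDiffAt ℂ 2 (fun y => e (e'.symm y)) (e' z) := (transition_contDiffAt he he' hz hz').of_le le_top
  have hzz : e (e'.symm (e' z)) = e z := by rw [e'.left_inv hz']
  have hF' : ContDiffAt ℝ 2 F ((fun y => e (e'.symm y)) (e' z)) := by
    simp only [hzz]; exact hF
  have := levi_comp_holo hF' hg v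
  simp only [hzz] at this
  exact this

theorem transition_fderiv_ne [IsManifold 𝓘(ℂ, Cn n) ω M] {e e' : OpenPartialHomeomorph M (Cn n)}
    (he : e ∈ atlas (Cn n) M) (he' : e' ∈ atlas (Cn n) M) {z : M} (hz : z ∈ e.source) (hz' : z ∈ e'.source)
    {v : Cn n} (hv : v ≠ 0) : fderiv ℂ (fun y => e (e'.symm y)) (e' z) v ≠ 0 := by
  intro h0
  have hg := (transition_contDiffAt he he' hz hz').differentiableAt (by simp)
  have hg' := (transition_contDiffAt he' he hz' hz).differentiableAt (by simp)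
  have hzz : e (e'.symm (e' z)) = e z := by rw [e'.left_inv hz']
  have hcomp : HasFDerivAt (fun y => e' (e.symm (e (e'.symm y))))
      ((fderiv ℂ (fun y => e' (e.symm y)) (e z)).comp (fderiv ℂ (fun y => e (e'.symm y)) (e' z))) (e' z) := by
    have h1 : HasFDerivAt (fun y => e' (e.symm y)) (fderiv ℂ (fun y => e' (e.symm y)) (e z))
        ((fun y => e (e'.symm y)) (e' z)) := by
      simp only [hzz]; exact hg'.hasFDerivAt
    exact h1.comp (e' z) hg.hasFDerivAt
  have hid : (fun y => e' (e.symm (e (e'.symm y)))) =ᶠ[𝓝 (e' z)] fun y => y := by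
    have h1 : ∀ᶠ y in 𝓝 (e' z), y ∈ e'.target := e'.open_target.mem_nhds (e'.map_source hz')
    have h2 : ∀ᶠ y in 𝓝 (e' z), e'.symm y ∈ e.source := by
      have hc := e'.continuousAt_symm (e'.map_source hz')
      have : e.source ∈ 𝓝 (e'.symm (e' z)) := by
        rw [e'.left_inv hz']; exact e.open_source.mem_nhds hz
      exact hc this
    filter_upwards [h1, h2] with y hy hy'
    rw [e.left_inv hy', e'.right_inv hy]
  have h3 : (fderiv ℂ (fun y => e' (e.symm y)) (e z)).comp (fderiv ℂ (fun y => e (e'.symm y)) (e' z)) =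
      ContinuousLinearMap.id ℂ (Cn n) :=
    (hcomp.congr_of_eventuallyEq hid.symm).unique (hasFDerivAt_id _)
  have h4 : v = (fderiv ℂ (fun y => e' (e.symm y)) (e z)) (fderiv ℂ (fun y => e (e'.symm y)) (e' z) v) := by
    have := congrArg (fun L => L v) h3
    simpa using this.symm
  rw [h0, map_zero] at h4
  exact hv h4

/-- the squared coordinate distance -/
theorem normsq_smoothAt [IsManifold 𝓘(ℂ, Cn n) ω M] {e : OpenPartialHomeomorph M (Cn n)}
    (he : e ∈ atlas (Cn n) M) (a : Cn n) {z : M} (hz : z ∈ e.source) :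
    SmoothAt n (fun x => ‖e x - a‖ ^ 2) z := by
  intro e' he' hz'
  have hg : ContDiffAt ℝ ∞ (fun y => e (e'.symm y)) (e' z) :=
    ((transition_contDiffAt he he' hz hz').restrict_scalars ℝ).of_le le_top
  have h1 : ContDiffAt ℝ ∞ (fun y : Cn n => ‖y - a‖ ^ 2) (e (e'.symm (e' z))) := by
    apply ContDiff.contDiffAt
    exact (contDiff_id.sub contDiff_const).norm_sq ℝ
  exact h1.comp (e' z) hg

theorem normsq_levi [IsManifold 𝓘(ℂ, Cn n) ω M] {e e' : OpenPartialHomeomorph M (Cn n)}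
    (he : e ∈ atlas (Cn n) M) (he' : e' ∈ atlas (Cn n) M) (a : Cn n) {z : M} (hz : z ∈ e.source)
    (hz' : z ∈ e'.source) (v : Cn n) :
    levi (fun y => ‖e (e'.symm y) - a‖ ^ 2) (e' z) v = 4 * ‖fderiv ℂ (fun y => e (e'.symm y)) (e' z) v‖ ^ 2 := by
  have h1 : ContDiffAt ℝ 2 (fun y : Cn n => ‖y - a‖ ^ 2) (e z) := by
    apply ContDiff.contDiffAt
    exact (contDiff_id.sub contDiff_const).norm_sq ℝ
  rw [levi_chart he he' hz hz' h1 v, levi_normsq]

/-! ### separation of points -/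

theorem levi_smul {f : Cn n → ℝ} (y v : Cn n) (t : ℝ) : levi f y (t • v) = t ^ 2 * levi f y v := by
  unfold levi
  rw [smul_comm Complex.I t v]
  have h1 : ∀ u : Cn n, fderiv ℝ (fderiv ℝ f) y (t • u) (t • u) = t ^ 2 * fderiv ℝ (fderiv ℝ f) y u u := by
    intro u
    have e0 : fderiv ℝ (fderiv ℝ f) y (t • u) = t • fderiv ℝ (fderiv ℝ f) y u := map_smul _ _ _
    have e1 : (t • fderiv ℝ (fderiv ℝ f) y u) (t • u) = t • (fderiv ℝ (fderiv ℝ f) y u (t • u)) := rfl
    rw [e0, e1, map_smul, smul_eq_mul, smul_eq_mul]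
    ring
  rw [h1, h1]
  ring

theorem hess_continuous_aux {F : Type*} [NormedAddCommGroup F] [NormedSpace ℝ F] {f : F → ℝ} {y0 : F}
    (hf : ContDiffAt ℝ 2 f y0) {ε : ℝ} (hε : 0 < ε) : ∃ δ : ℝ, 0 < δ ∧ ∀ y, ‖y - y0‖ < δ →
      ‖fderiv ℝ (fderiv ℝ f) y - fderiv ℝ (fderiv ℝ f) y0‖ < ε := by
  have h1 : ContDiffAt ℝ 1 (fderiv ℝ f) y0 := hf.fderiv_right (m := 1) (by norm_num)
  have h2 : ContDiffAt ℝ 0 (fderiv ℝ (fderiv ℝ f)) y0 := h1.fderiv_right (m := 0) (by norm_num)
  have hc2 := h2.continuousAt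
  obtain ⟨δ, hδ, hδb⟩ := (Metric.continuousAt_iff (α := F) (β := F →L[ℝ] F →L[ℝ] ℝ)).mp hc2 ε hε
  refine ⟨δ, hδ, fun y hy => ?_⟩
  have h3 := hδb (show dist y y0 < δ by rwa [dist_eq_norm])
  have h4 := dist_eq_norm (E := F →L[ℝ] F →L[ℝ] ℝ) (fderiv ℝ (fderiv ℝ f) y) (fderiv ℝ (fderiv ℝ f) y0)
  rw [h4] at h3
  exact h3

theorem uniform_strict {f : Cn n → ℝ} {y0 : Cn n} (hf : ContDiffAt ℝ 2 f y0)
    (hs : ∀ v : Cn n, v ≠ 0 → 0 < levi f y0 v) :
    ∃ κ : ℝ, 0 < κ ∧ ∃ δ : ℝ, 0 < δ ∧ ∀ y, ‖y - y0‖ < δ → ∀ v : Cn n, 4 * κ * ‖v‖ ^ 2 ≤ levi f y v := by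
  have hcont : Continuous (fun v : Cn n => levi f y0 v) := by
    unfold levi
    fun_prop
  -- a lower bound on the unit sphere
  obtain ⟨m, hm, hmb⟩ : ∃ m : ℝ, 0 < m ∧ ∀ v : Cn n, m * ‖v‖ ^ 2 ≤ levi f y0 v := by
    have hS : IsCompact (Metric.sphere (0 : Cn n) 1) := isCompact_sphere _ _
    rcases (Metric.sphere (0 : Cn n) 1).eq_empty_or_nonempty with hE | hN
    · refine ⟨1, one_pos, fun v => ?_⟩
      have hv : v = 0 := by
        by_contra hv
        have : (‖v‖⁻¹ • v) ∈ Metric.sphere (0 : Cn n) 1 := by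
          rw [mem_sphere_zero_iff_norm, norm_smul, norm_inv, norm_norm]
          exact inv_mul_cancel₀ (norm_ne_zero_iff.mpr hv)
        rw [hE] at this
        exact this
      rw [hv]
      simp [levi]
    · obtain ⟨v0, hv0, hmin⟩ := hS.exists_isMinOn hN hcont.continuousOn
      refine ⟨levi f y0 v0, hs v0 ?_, fun v => ?_⟩
      · intro h0
        rw [h0, mem_sphere_zero_iff_norm, norm_zero] at hv0
        exact zero_ne_one hv0
      · by_cases hv : v = 0
        · rw [hv]; simp [levi]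
        · have hn : ‖v‖ ≠ 0 := norm_ne_zero_iff.mpr hv
          have h1 : (‖v‖⁻¹ • v) ∈ Metric.sphere (0 : Cn n) 1 := by
            rw [mem_sphere_zero_iff_norm, norm_smul, norm_inv, norm_norm]
            exact inv_mul_cancel₀ hn
          have h2 : levi f y0 v0 ≤ levi f y0 (‖v‖⁻¹ • v) := hmin h1
          rw [levi_smul] at h2
          have h3 : levi f y0 v = ‖v‖ ^ 2 * (‖v‖⁻¹ ^ 2 * levi f y0 v) := by
            field_simp
          rw [h3]
          have : 0 ≤ ‖v‖ ^ 2 := by positivity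
          nlinarith
  obtain ⟨δ, hδ, hδb⟩ := hess_continuous_aux hf (show 0 < m / 4 by positivity)
  refine ⟨m / 8, by positivity, δ, hδ, fun y hy v => ?_⟩
  have h1 : ‖fderiv ℝ (fderiv ℝ f) y - fderiv ℝ (fderiv ℝ f) y0‖ ≤ m / 4 := by
    exact (hδb y hy).le
  have h2 : ∀ u : Cn n, fderiv ℝ (fderiv ℝ f) y0 u u - m / 4 * ‖u‖ ^ 2 ≤ fderiv ℝ (fderiv ℝ f) y u u := by
    intro u
    have h3 : ‖(fderiv ℝ (fderiv ℝ f) y - fderiv ℝ (fderiv ℝ f) y0) u u‖ ≤ m / 4 * ‖u‖ * ‖u‖ := by
      refine (ContinuousLinearMap.le_opNorm₂ _ u u).trans ?_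
      gcongr
    have h4 : (fderiv ℝ (fderiv ℝ f) y - fderiv ℝ (fderiv ℝ f) y0) u u =
        fderiv ℝ (fderiv ℝ f) y u u - fderiv ℝ (fderiv ℝ f) y0 u u := rfl
    rw [h4, Real.norm_eq_abs] at h3
    have h5 := (abs_le.mp h3).1
    nlinarith
  have h5 := h2 v
  have h6 := h2 (Complex.I • v)
  have h7 := hmb v
  have h8 : ‖Complex.I • v‖ = ‖v‖ := by rw [norm_smul, Complex.norm_I, one_mul]
  rw [h8] at h6
  unfold levi at h7 ⊢
  nlinarith

theorem separate_off_core [T2Space M] [IsManifold 𝓘(ℂ, Cn n) ω M] {Ω : Set M} (hΩ : IsOpen Ω) {w z0 : M}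
    (hw : w ∈ Ω) (hne : w ≠ z0) {φ : M → ℝ} (hφ : IsAdmissible n Ω φ) (hs : StrictPshAt n φ w) :
    ∃ ψ : M → ℝ, IsAdmissible n Ω ψ ∧ ψ w ≠ ψ z0 := by
  by_cases hww : φ w = φ z0
  swap
  · exact ⟨φ, hφ, hww⟩
  set e := chartAt (Cn n) w with he
  have heA : e ∈ atlas (Cn n) M := chart_mem_atlas (Cn n) w
  have hws : w ∈ e.source := mem_chart_source (Cn n) w
  obtain ⟨κ, hκ, δ, hδ, hb⟩ := uniform_strict ((hφ.smooth w hw).c2 heA hws) (hs e heA hws)
  -- the open set where everything is fine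
  have hopen : IsOpen (e.target ∩ e.symm ⁻¹' Ω) := e.symm.isOpen_inter_preimage hΩ
  have hmem : e w ∈ e.target ∩ e.symm ⁻¹' Ω := ⟨e.map_source hws, by
    show e.symm (e w) ∈ Ω
    rw [e.left_inv hws]; exact hw⟩
  obtain ⟨r1, hr1, hr1b⟩ := Metric.nhds_basis_closedBall.mem_iff.mp (hopen.mem_nhds hmem)
  obtain ⟨r, hr, hrr1, hrδ, hrz⟩ : ∃ r : ℝ, 0 < r ∧ r ≤ r1 ∧ r < δ ∧
      ¬ (z0 ∈ e.source ∧ ‖e z0 - e w‖ < r) := by
    by_cases hz : z0 ∈ e.source
    · have hpos : 0 < ‖e z0 - e w‖ := by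
        rw [norm_pos_iff, sub_ne_zero]
        intro h
        exact hne (e.injOn hws hz h.symm)
      refine ⟨min (min r1 (δ / 2)) ‖e z0 - e w‖, ?_, ?_, ?_, ?_⟩
      · exact lt_min (lt_min hr1 (by positivity)) hpos
      · exact (min_le_left _ _).trans (min_le_left _ _)
      · calc min (min r1 (δ / 2)) ‖e z0 - e w‖ ≤ δ / 2 := (min_le_left _ _).trans (min_le_right _ _)
          _ < δ := by linarith
      · rintro ⟨_, h⟩
        exact absurd (h.trans_le (min_le_right _ _)) (lt_irrefl _)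
    · refine ⟨min r1 (δ / 2), lt_min hr1 (by positivity), min_le_left _ _, ?_, fun h => hz h.1⟩
      calc min r1 (δ / 2) ≤ δ / 2 := min_le_right _ _
        _ < δ := by linarith
  have hball : Metric.closedBall (e w) r ⊆ e.target ∩ e.symm ⁻¹' Ω :=
    (Metric.closedBall_subset_closedBall hrr1).trans hr1b
  have hinΩ : ∀ z ∈ e.source, ‖e z - e w‖ ≤ r → z ∈ Ω := by
    intro z hz hzr
    have : e z ∈ Metric.closedBall (e w) r := by
      rw [Metric.mem_closedBall, dist_eq_norm]; exact hzr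
    have h2 := (hball this).2
    have h3 : e.symm (e z) ∈ Ω := h2
    rwa [e.left_inv hz] at h3
  set U : M → ℝ := fun z => (φ z + (-κ) * ‖e z - e w‖ ^ 2) + κ * r ^ 2 / 2 with hU
  have sU : ∀ z ∈ e.source, ‖e z - e w‖ ≤ r → SmoothAt n U z := by
    intro z hz hzr
    exact ((hφ.smooth z (hinΩ z hz hzr)).add ((normsq_smoothAt heA (e w) hz).const_mul (-κ))).add
      (SmoothAt.const _ z)
  have pU : ∀ z ∈ e.source, ‖e z - e w‖ < r → PshAt n U z := by
    intro z hz hzr e' he' hz' v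
    have hzΩ := hinΩ z hz hzr.le
    have c1 := (hφ.smooth z hzΩ).c2 he' hz'
    have c2 := (normsq_smoothAt heA (e w) hz).c2 he' hz'
    have hlevi : levi (fun y => U (e'.symm y)) (e' z) v =
        levi (fun y => φ (e'.symm y)) (e' z) v + (-κ) * levi (fun y => ‖e (e'.symm y) - e w‖ ^ 2) (e' z) v := by
      simp only [hU]
      rw [levi_add (c1.add (contDiffAt_const.mul c2)) contDiffAt_const, levi_const,
        levi_add c1 (contDiffAt_const.mul c2), levi_const_mul c2]
      ring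
    rw [hlevi, normsq_levi heA he' (e w) hz hz' v]
    have h5 : (fun y => φ (e'.symm y)) =ᶠ[𝓝 (e' z)] (fun y => (fun x => φ (e.symm x)) (e (e'.symm y))) := by
      have h2 : ∀ᶠ y in 𝓝 (e' z), e'.symm y ∈ e.source := by
        have hc := e'.continuousAt_symm (e'.map_source hz')
        have : e.source ∈ 𝓝 (e'.symm (e' z)) := by
          rw [e'.left_inv hz']; exact e.open_source.mem_nhds hz
        exact hc this
      filter_upwards [h2] with y hy
      simp only [e.left_inv hy]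
    rw [levi_congr h5, levi_chart heA he' hz hz' ((hφ.smooth z hzΩ).c2 heA hz)]
    have := hb (e z) (hzr.trans hrδ) (fderiv ℂ (fun y => e (e'.symm y)) (e' z) v)
    linarith
  have hlt : ∀ z ∈ e.source, ‖e z - e w‖ = r → U z < φ z := by
    intro z _ hzr
    simp only [hU, hzr]
    have : 0 < κ * r ^ 2 := by positivity
    linarith
  refine ⟨glued e w r U φ, glued_admissible (hball.trans inter_subset_left) hφ sU pU hlt, ?_⟩
  have hg0 : glued e w r U φ z0 = φ z0 := by
    simp only [glued, if_neg hrz]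
  have hgw : glued e w r U φ w = φ w + glueFun (κ * r ^ 2 / 2) := by
    have hcond : w ∈ e.source ∧ ‖e w - e w‖ < r := ⟨hws, by simpa using hr⟩
    simp only [glued, if_pos hcond]
    congr 2
    simp only [hU, sub_self, norm_zero]
    ring
  rw [hg0, hgw, hww]
  have := glueFun_pos (show 0 < κ * r ^ 2 / 2 by positivity)
  linarith

theorem normsq_psh [IsManifold 𝓘(ℂ, Cn n) ω M] {e : OpenPartialHomeomorph M (Cn n)}
    (he : e ∈ atlas (Cn n) M) (a : Cn n) {z : M} (hz : z ∈ e.source) : PshAt n (fun x => ‖e x - a‖ ^ 2) z := by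
  intro e' he' hz' v
  rw [normsq_levi he he' a hz hz']
  positivity

theorem normsq_strict [IsManifold 𝓘(ℂ, Cn n) ω M] {e : OpenPartialHomeomorph M (Cn n)}
    (he : e ∈ atlas (Cn n) M) (a : Cn n) {z : M} (hz : z ∈ e.source) :
    StrictPshAt n (fun x => ‖e x - a‖ ^ 2) z := by
  intro e' he' hz' v hv
  rw [normsq_levi he he' a hz hz']
  have := norm_pos_iff.mpr (transition_fderiv_ne he he' hz hz' hv)
  positivity

/-- If every point `w ≠ z0` of `Ω` is separated from `z0` by a function of `𝓕(Ω)`, then `z0` is not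
in the core. -/
theorem not_core_of_separated [T2Space M] [IsManifold 𝓘(ℂ, Cn n) ω M] {Ω : Set M} (hΩ : IsOpen Ω) {z0 : M}
    (hz0 : z0 ∈ Ω) (hsep : ∀ w ∈ Ω, w ≠ z0 → ∃ φ : M → ℝ, IsAdmissible n Ω φ ∧ φ w ≠ φ z0) :
    z0 ∉ core n Ω := by
  classical
  set e := chartAt (Cn n) z0 with he
  have heA : e ∈ atlas (Cn n) M := chart_mem_atlas (Cn n) z0
  have hzs : z0 ∈ e.source := mem_chart_source (Cn n) z0
  have hopen : IsOpen (e.target ∩ e.symm ⁻¹' Ω) := e.symm.isOpen_inter_preimage hΩ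
  have hmem : e z0 ∈ e.target ∩ e.symm ⁻¹' Ω := ⟨e.map_source hzs, by
    show e.symm (e z0) ∈ Ω
    rw [e.left_inv hzs]; exact hz0⟩
  obtain ⟨r, hr, hball⟩ := Metric.nhds_basis_closedBall.mem_iff.mp (hopen.mem_nhds hmem)
  have hinΩ : ∀ z ∈ e.source, ‖e z - e z0‖ ≤ r → z ∈ Ω := by
    intro z hz hzr
    have : e z ∈ Metric.closedBall (e z0) r := by
      rw [Metric.mem_closedBall, dist_eq_norm]; exact hzr
    have h2 := (hball this).2
    have h3 : e.symm (e z) ∈ Ω := h2
    rwa [e.left_inv hz] at h3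
  -- the sphere
  set S : Set M := e.symm '' Metric.sphere (e z0) r with hS
  have hSc : IsCompact S :=
    (isCompact_sphere (e z0) r).image_of_continuousOn
      (e.continuousOn_symm.mono (Metric.sphere_subset_closedBall.trans (hball.trans inter_subset_left)))
  have hSmem : ∀ z, z ∈ S ↔ z ∈ e.source ∧ ‖e z - e z0‖ = r := by
    intro z
    constructor
    · rintro ⟨y, hy, rfl⟩
      have hyt := (hball (Metric.sphere_subset_closedBall hy)).1
      refine ⟨e.map_target hyt, ?_⟩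
      rw [e.right_inv hyt, ← dist_eq_norm]
      exact hy
    · rintro ⟨h1, h2⟩
      refine ⟨e z, ?_, e.left_inv h1⟩
      rw [Metric.mem_sphere, dist_eq_norm]
      exact h2
  have hSΩ : S ⊆ Ω := fun z hz => hinΩ z ((hSmem z).mp hz).1 ((hSmem z).mp hz).2.le
  have hcont : ∀ φ : M → ℝ, IsAdmissible n Ω φ → ContinuousOn φ S := fun φ hφ z hz =>
    (hφ.smooth z (hSΩ hz)).continuousAt.continuousWithinAt
  -- K1 : points of the sphere dominated by z0
  set K1 : Set M := {z | z ∈ S ∧ ∀ φ : M → ℝ, IsAdmissible n Ω φ → φ z ≤ φ z0} with hK1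
  have hK1c : IsCompact K1 := by
    have : K1 = S ∩ ⋂ (φ : M → ℝ) (_ : IsAdmissible n Ω φ), {z | z ∈ S ∧ φ z ≤ φ z0} ∪ Sᶜ := by
      ext z
      simp only [hK1, mem_ofPred_eq, mem_inter_iff, mem_iInter, mem_union, mem_compl_iff]
      constructor
      · rintro ⟨h1, h2⟩
        exact ⟨h1, fun φ hφ => Or.inl ⟨h1, h2 φ hφ⟩⟩
      · rintro ⟨h1, h2⟩
        refine ⟨h1, fun φ hφ => ?_⟩
        rcases h2 φ hφ with h3 | h3
        · exact h3.2
        · exact absurd h1 h3
    -- closedness inside the compact set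
    apply hSc.of_isClosed_subset _ (fun z hz => hz.1)
    have hcl : K1 = ⋂ (φ : {φ : M → ℝ // IsAdmissible n Ω φ}), {z | z ∈ S ∧ φ.1 z ≤ φ.1 z0} ∩ S := by
      ext z
      simp only [hK1, mem_ofPred_eq, mem_iInter, mem_inter_iff]
      constructor
      · rintro ⟨h1, h2⟩ φ
        exact ⟨⟨h1, h2 φ.1 φ.2⟩, h1⟩
      · intro h
        have h0 := h ⟨fun _ => (0:ℝ), IsAdmissible.const Ω 0⟩
        exact ⟨h0.2, fun φ hφ => (h ⟨φ, hφ⟩).1.2⟩
    rw [hcl]
    apply isClosed_iInter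
    intro φ
    have h3 : {z | z ∈ S ∧ φ.1 z ≤ φ.1 z0} ∩ S = S ∩ φ.1 ⁻¹' Iic (φ.1 z0) := by
      ext z
      simp only [mem_inter_iff, mem_ofPred_eq, mem_preimage, mem_Iic]
      tauto
    rw [h3]
    exact (hcont φ.1 φ.2).preimage_isClosed_of_isClosed hSc.isClosed isClosed_Iic
  have hne : ∀ z ∈ S, z ≠ z0 := by
    intro z hz h
    have := ((hSmem z).mp hz).2
    rw [h, sub_self, norm_zero] at this
    exact hr.ne this
  -- step 1 : Φ
  have hstep1 : ∀ z ∈ K1, ∃ φ : M → ℝ, IsAdmissible n Ω φ ∧ φ z < φ z0 := by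
    intro z hz
    obtain ⟨φ, hφ, h1⟩ := hsep z (hSΩ hz.1) (hne z hz.1)
    exact ⟨φ, hφ, lt_of_le_of_ne (hz.2 φ hφ) h1⟩
  choose! f1 hf1a hf1b using hstep1
  obtain ⟨T1, hT1, hcov1⟩ := hK1c.elim_nhds_subcover (fun x => {z | f1 x z < f1 x z0}) (by
    intro x hx
    exact (((hf1a x hx).smooth x (hSΩ hx.1)).continuousAt).eventually (Iio_mem_nhds (hf1b x hx)))
  set Φ : M → ℝ := fun z => ∑ x ∈ T1, f1 x z with hΦ
  have hΦa : IsAdmissible n Ω Φ := IsAdmissible.sum T1 f1 (fun x hx => hf1a x (hT1 x hx))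
  have hΦlt : ∀ z ∈ K1, Φ z < Φ z0 := by
    intro z hz
    apply Finset.sum_lt_sum
    · intro x hx
      exact hz.2 _ (hf1a x (hT1 x hx))
    · obtain ⟨x, hx, hzx⟩ := mem_iUnion₂.mp (hcov1 hz)
      exact ⟨x, hx, hzx⟩
  obtain ⟨a, ha, haK⟩ : ∃ a : ℝ, a < Φ z0 ∧ ∀ z ∈ K1, Φ z < a := by
    rcases K1.eq_empty_or_nonempty with hE | hN
    · exact ⟨Φ z0 - 1, by linarith, fun z hz => by rw [hE] at hz; exact absurd hz (notMem_empty z)⟩
    · obtain ⟨z1, hz1, hmax⟩ := hK1c.exists_isMaxOn hN ((hcont Φ hΦa).mono (fun z hz => hz.1))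
      refine ⟨(Φ z1 + Φ z0) / 2, ?_, ?_⟩
      · have := hΦlt z1 hz1; linarith
      · intro z hz
        have h1 : Φ z ≤ Φ z1 := hmax hz
        have := hΦlt z1 hz1; linarith
  -- step 2 : V
  set K2 : Set M := S ∩ Φ ⁻¹' Ici a with hK2
  have hK2c : IsCompact K2 := by
    apply hSc.of_isClosed_subset _ inter_subset_left
    exact (hcont Φ hΦa).preimage_isClosed_of_isClosed hSc.isClosed isClosed_Ici
  have hstep2 : ∀ z ∈ K2, ∃ φ : M → ℝ, IsAdmissible n Ω φ ∧ φ z0 < φ z := by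
    intro z hz
    by_contra hcon
    push Not at hcon
    have hzK1 : z ∈ K1 := ⟨hz.1, fun φ hφ => hcon φ hφ⟩
    have h1 := haK z hzK1
    have h2 : a ≤ Φ z := hz.2
    linarith
  choose! f2 hf2a hf2b using hstep2
  obtain ⟨T2, hT2, hcov2⟩ := hK2c.elim_nhds_subcover (fun x => {z | f2 x z0 < f2 x z}) (by
    intro x hx
    exact (((hf2a x hx).smooth x (hSΩ hx.1)).continuousAt).eventually (Ioi_mem_nhds (hf2b x hx)))
  set W : M → ℝ := fun z => ∑ x ∈ T2, glueFun (f2 x z + (-(f2 x z0))) with hW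
  have hglueAdm : ∀ φ : M → ℝ, IsAdmissible n Ω φ → IsAdmissible n Ω (fun z => glueFun (φ z)) := by
    intro φ hφ
    refine ⟨fun z hz => (hφ.smooth z hz).comp glueFun_contDiff, ?_, ?_⟩
    · intro z hz e' he' hz' v
      have c1 := (hφ.smooth z hz).c2 he' hz'
      have cχ : ContDiff ℝ 2 glueFun := glueFun_contDiff.of_le ENat.LEInfty.out
      rw [levi_comp_real c1 cχ.contDiffAt]
      have a1 := hφ.psh z hz e' he' hz' v
      have a3 := deriv_deriv_glueFun_nonneg (φ (e'.symm (e' z)))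
      rw [deriv_glueFun] at a3 ⊢
      have a5 := expNegInvGlue.nonneg (φ (e'.symm (e' z)))
      positivity
    · obtain ⟨C, hC⟩ := hφ.bdd
      refine ⟨max C 0, fun z hz => ?_⟩
      rcases le_or_gt (φ z) 0 with h | h
      · rw [glueFun_of_nonpos h]; exact le_max_right _ _
      · exact (glueFun_le h.le).trans ((hC z hz).trans (le_max_left _ _))
  have hWa : IsAdmissible n Ω W := by
    apply IsAdmissible.sum T2 (fun x z => glueFun (f2 x z + (-(f2 x z0))))
    intro x hx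
    exact hglueAdm _ ((hf2a x (hT2 x hx)).add (IsAdmissible.const Ω _))
  have hW0 : W z0 = 0 := by
    simp only [hW]
    apply Finset.sum_eq_zero
    intro x _
    exact glueFun_of_nonpos (by linarith)
  have hWnn : ∀ z, 0 ≤ W z := fun z => Finset.sum_nonneg (fun x _ => glueFun_nonneg _)
  have hWpos : ∀ z ∈ K2, 0 < W z := by
    intro z hz
    obtain ⟨x, hx, hzx⟩ := mem_iUnion₂.mp (hcov2 hz)
    apply Finset.sum_pos' (fun x _ => glueFun_nonneg _)
    refine ⟨x, hx, glueFun_pos ?_⟩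
    have : f2 x z0 < f2 x z := hzx
    linarith
  obtain ⟨c, hc, hcW⟩ : ∃ c : ℝ, 0 < c ∧ ∀ z ∈ K2, c ≤ W z := by
    rcases K2.eq_empty_or_nonempty with hE | hN
    · exact ⟨1, one_pos, fun z hz => by rw [hE] at hz; exact absurd hz (notMem_empty z)⟩
    · obtain ⟨z1, hz1, hmin⟩ := hK2c.exists_isMinOn hN ((hcont W hWa).mono inter_subset_left)
      exact ⟨W z1, hWpos z1 hz1, fun z hz => hmin hz⟩
  obtain ⟨D, hD⟩ := hSc.exists_bound_of_continuousOn (hcont Φ hΦa)
  -- parameters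
  set η : ℝ := (Φ z0 - a) / (2 * r ^ 2) with hη
  have hηpos : 0 < η := by
    rw [hη]; apply div_pos (by linarith) (by positivity)
  have hηr : η * r ^ 2 = (Φ z0 - a) / 2 := by
    rw [hη]; field_simp
  set Cc : ℝ := (|D| + |a| + 1) / c with hCc
  have hCcpos : 0 ≤ Cc := by rw [hCc]; positivity
  have hCcc : Cc * c = |D| + |a| + 1 := by rw [hCc]; field_simp
  set V : M → ℝ := fun z => Cc * W z + (a + η * r ^ 2) with hV
  have hVa : IsAdmissible n Ω V := (hWa.const_mul hCcpos).add (IsAdmissible.const Ω _)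
  set U : M → ℝ := fun z => Φ z + η * ‖e z - e z0‖ ^ 2 with hU
  have sU : ∀ z ∈ e.source, ‖e z - e z0‖ ≤ r → SmoothAt n U z := by
    intro z hz hzr
    exact (hΦa.smooth z (hinΩ z hz hzr)).add ((normsq_smoothAt heA (e z0) hz).const_mul η)
  have pU : ∀ z ∈ e.source, ‖e z - e z0‖ < r → PshAt n U z := by
    intro z hz hzr
    exact PshAt.add (hΦa.smooth z (hinΩ z hz hzr.le)) ((normsq_smoothAt heA (e z0) hz).const_mul η)
      (hΦa.psh z (hinΩ z hz hzr.le))
      (PshAt.const_mul (normsq_smoothAt heA (e z0) hz) (normsq_psh heA (e z0) hz) hηpos.le)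
  have hlt : ∀ z ∈ e.source, ‖e z - e z0‖ = r → U z < V z := by
    intro z hz hzr
    have hzS : z ∈ S := (hSmem z).mpr ⟨hz, hzr⟩
    simp only [hU, hV, hzr]
    by_cases h : a ≤ Φ z
    · have hzK2 : z ∈ K2 := ⟨hzS, h⟩
      have h1 := hcW z hzK2
      have h2 : Cc * c ≤ Cc * W z := mul_le_mul_of_nonneg_left h1 hCcpos
      rw [hCcc] at h2
      have h3 : Φ z ≤ |D| := (le_abs_self _).trans ((hD z hzS).trans (le_abs_self D))
      have h4 : -|a| ≤ a := neg_abs_le a
      linarith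
    · push Not at h
      have h2 : 0 ≤ Cc * W z := mul_nonneg hCcpos (hWnn z)
      linarith
  have hadm := glued_admissible (Ω := Ω) (hball.trans inter_subset_left) hVa sU pU hlt
  have hUV : V z0 < U z0 := by
    simp only [hU, hV, hW0, sub_self, norm_zero]
    rw [hηr]
    have : (0:ℝ) ^ 2 = 0 := by norm_num
    rw [this]
    linarith
  have hUs : StrictPshAt n U z0 := by
    intro e' he' hz' v hv
    have c1 := (hΦa.smooth z0 hz0).c2 he' hz'
    have c2 := (normsq_smoothAt heA (e z0) hzs).c2 he' hz'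
    have hlevi : levi (fun y => U (e'.symm y)) (e' z0) v =
        levi (fun y => Φ (e'.symm y)) (e' z0) v + η * levi (fun y => ‖e (e'.symm y) - e z0‖ ^ 2) (e' z0) v := by
      simp only [hU]
      rw [levi_add c1 (contDiffAt_const.mul c2), levi_const_mul c2]
    rw [hlevi]
    have a1 := hΦa.psh z0 hz0 e' he' hz' v
    have a2 := normsq_strict heA (e z0) hzs e' he' hz' v hv
    have a3 := mul_pos hηpos a2
    linarith
  have hstrict : StrictPshAt n (glued e z0 r U V) z0 :=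
    (StrictPshAt.glue (sU z0 hzs (by simpa using hr.le)) (hVa.smooth z0 hz0) hUs (hVa.psh z0 hz0) hUV).congr
      (glued_near_ball hzs (by simpa using hr))
  intro hcore
  exact hcore.2 _ hadm hstrict

end manifold

end Pool.Agent.Lib.MP_425ff5_an
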