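import Mathlib

open scoped ContDiff Topology
open Set Filter

namespace Pool.Agent.Lib.MP_425ff5_an

/-- second derivative test -/
theorem second_deriv_nonpos {g : ℝ → ℝ} (hc : ContinuousAt g 0) (hmax : IsLocalMax g 0) :
    deriv (deriv g) 0 ≤ 0 := by
  by_contra hcon
  push Not at hcon
  have hmin : IsLocalMin g 0 := isLocalMin_of_deriv_deriv_pos hcon hmax.deriv_eq_zero hc
  have hconst : g =ᶠ[𝓝 0] fun _ => g 0 := by
    filter_upwards [hmax, hmin] with t h1 h2
    exact le_antisymm h1 h2
  have h1 : deriv g =ᶠ[𝓝 0] deriv (fun _ => g 0) := hconst.deriv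
  rw [h1.deriv_eq] at hcon
  simp at hcon

theorem deriv2_add {u v : ℝ → ℝ} (hu : ContDiffAt ℝ 2 u 0) (hv : ContDiffAt ℝ 2 v 0) :
    deriv (deriv (fun t => u t + v t)) 0 = deriv (deriv u) 0 + deriv (deriv v) 0 := by
  have h1 : ∀ᶠ t in 𝓝 (0:ℝ), DifferentiableAt ℝ u t := by
    filter_upwards [hu.eventually (by norm_num)] with t ht
    exact ht.differentiableAt (by norm_num)
  have h2 : ∀ᶠ t in 𝓝 (0:ℝ), DifferentiableAt ℝ v t := by
    filter_upwards [hv.eventually (by norm_num)] with t ht
    exact ht.differentiableAt (by norm_num)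
  have h3 : deriv (fun t => u t + v t) =ᶠ[𝓝 0] fun t => deriv u t + deriv v t := by
    filter_upwards [h1, h2] with t ht ht'
    exact deriv_fun_add ht ht'
  have du : ∀ w : ℝ → ℝ, ContDiffAt ℝ 2 w 0 → DifferentiableAt ℝ (deriv w) 0 := by
    intro w hw
    have h4 : ContDiffAt ℝ 1 (fderiv ℝ w) 0 := hw.fderiv_right (m := 1) (by norm_num)
    have h5 : deriv w = fun t => fderiv ℝ w t 1 := by ext t; simp
    rw [h5]
    exact (h4.clm_apply contDiffAt_const).differentiableAt (by norm_num)
  rw [h3.deriv_eq, deriv_fun_add (du u hu) (du v hv)]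

theorem deriv2_const_mul {u : ℝ → ℝ} (hu : ContDiffAt ℝ 2 u 0) (c : ℝ) :
    deriv (deriv (fun t => c * u t)) 0 = c * deriv (deriv u) 0 := by
  have h1 : ∀ᶠ t in 𝓝 (0:ℝ), DifferentiableAt ℝ u t := by
    filter_upwards [hu.eventually (by norm_num)] with t ht
    exact ht.differentiableAt (by norm_num)
  have h3 : deriv (fun t => c * u t) =ᶠ[𝓝 0] fun t => c * deriv u t := by
    filter_upwards [h1] with t ht
    exact deriv_const_mul c ht
  have du : DifferentiableAt ℝ (deriv u) 0 := by
    have h4 : ContDiffAt ℝ 1 (fderiv ℝ u) 0 := hu.fderiv_right (m := 1) (by norm_num)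
    have h5 : deriv u = fun t => fderiv ℝ u t 1 := by ext t; simp
    rw [h5]
    exact (h4.clm_apply contDiffAt_const).differentiableAt (by norm_num)
  rw [h3.deriv_eq, deriv_const_mul c du]

theorem deriv2_log (x d : ℝ) (h : 0 < x ^ 2 + d) :
    ContDiffAt ℝ 2 (fun t : ℝ => Real.log ((x + t) ^ 2 + d)) 0 ∧
    deriv (deriv (fun t : ℝ => Real.log ((x + t) ^ 2 + d))) 0 =
      2 / (x ^ 2 + d) - 4 * x ^ 2 / (x ^ 2 + d) ^ 2 := by
  have hq : ContDiff ℝ 2 (fun t : ℝ => (x + t) ^ 2 + d) := by fun_prop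
  have h0 : ((x + 0) ^ 2 + d : ℝ) ≠ 0 := by simpa using h.ne'
  refine ⟨hq.contDiffAt.log h0, ?_⟩
  have hev : ∀ᶠ t in 𝓝 (0:ℝ), ((x + t) ^ 2 + d : ℝ) ≠ 0 := by
    have : ContinuousAt (fun t : ℝ => (x + t) ^ 2 + d) 0 := hq.continuous.continuousAt
    exact this.eventually_ne h0
  have hder : ∀ t : ℝ, HasDerivAt (fun t : ℝ => (x + t) ^ 2 + d) (2 * (x + t)) t := by
    intro t
    have h1 : HasDerivAt (fun t : ℝ => x + t) 1 t := (hasDerivAt_id t).const_add x
    have h2 := (h1.pow 2).add_const d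
    refine h2.congr_deriv ?_
    simp
  have h3 : deriv (fun t : ℝ => Real.log ((x + t) ^ 2 + d)) =ᶠ[𝓝 0]
      fun t => 2 * (x + t) / ((x + t) ^ 2 + d) := by
    filter_upwards [hev] with t ht
    exact ((hder t).log ht).deriv
  rw [h3.deriv_eq]
  have h4 : HasDerivAt (fun t : ℝ => 2 * (x + t)) 2 0 := by
    have h1 : HasDerivAt (fun t : ℝ => x + t) 1 0 := (hasDerivAt_id (0:ℝ)).const_add x
    have := h1.const_mul 2
    simpa using this
  have h5 : deriv (fun t : ℝ => 2 * (x + t) / ((x + t) ^ 2 + d)) 0 = _ := (h4.div (hder 0) h0).deriv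
  rw [h5]
  simp only [add_zero]
  field_simp
  ring

/-- **Liouville's theorem** for smooth subharmonic functions on `ℂ` bounded from above. -/
theorem liouville (f : ℂ → ℝ) (hf : Continuous f)
    (h1 : ∀ z : ℂ, ContDiffAt ℝ 2 (fun t : ℝ => f (z + (t : ℂ))) 0)
    (h2 : ∀ z : ℂ, ContDiffAt ℝ 2 (fun t : ℝ => f (z + (t : ℂ) * Complex.I)) 0)
    (hlap : ∀ z : ℂ, 0 ≤ deriv (deriv (fun t : ℝ => f (z + (t : ℂ)))) 0 +
      deriv (deriv (fun t : ℝ => f (z + (t : ℂ) * Complex.I))) 0)
    (C : ℝ) (hC : ∀ z, f z ≤ C) (z w : ℂ) : f z = f w := by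
  -- it suffices to show `f z ≤ f a` for all `z, a`
  suffices H : ∀ a z : ℂ, f z ≤ f a from le_antisymm (H w z) (H z w)
  intro a z1
  by_cases hza : z1 = a
  · rw [hza]
  have hpos : 0 < ‖z1 - a‖ := norm_pos_iff.mpr (sub_ne_zero.mpr hza)
  -- step 1 : comparison with the maximum over small closed balls
  have key : ∀ r : ℝ, 0 < r → r < ‖z1 - a‖ → ∀ m : ℝ, (∀ ζ : ℂ, ‖ζ - a‖ ≤ r → f ζ ≤ m) → f z1 ≤ m := by
    intro r hr hr1 m hm
    set b : ℝ → ℝ := fun s => Real.log s - 1/2 * Real.log (s + 1) with hb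
    set B : ℂ → ℝ := fun ζ => b (‖ζ - a‖ ^ 2) - b (r ^ 2) with hB
    -- it suffices to have the inequality with ε
    have hε : ∀ ε : ℝ, 0 < ε → f z1 - ε * B z1 ≤ m := by
      intro ε hε
      by_contra hcon
      push Not at hcon
      -- choose R
      obtain ⟨R, hR1, hR⟩ : ∃ R : ℝ, ‖z1 - a‖ < R ∧ ∀ ζ : ℂ, R ≤ ‖ζ - a‖ → f ζ - ε * B ζ ≤ m := by
        set L : ℝ := 2 * ((|C| + |m|) / ε + |b (r^2)|) + Real.log 2 with hL
        refine ⟨max (‖z1 - a‖ + 1) (max 1 (Real.exp L)), ?_, ?_⟩
        · exact lt_of_lt_of_le (by linarith) (le_max_left _ _)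
        · intro ζ hζ
          have e1 : 1 ≤ ‖ζ - a‖ := ((le_max_left _ _).trans (le_max_right _ _)).trans hζ
          have e2 : Real.exp L ≤ ‖ζ - a‖ := ((le_max_right _ _).trans (le_max_right _ _)).trans hζ
          have e3 : L ≤ Real.log ‖ζ - a‖ := by
            rw [Real.le_log_iff_exp_le (by linarith)]
            exact e2
          have e4 : (|C| + |m|) / ε + |b (r^2)| ≤ b (‖ζ - a‖ ^ 2) := by
            simp only [hb]
            have e5 : Real.log (‖ζ - a‖ ^ 2 + 1) ≤ Real.log (2 * ‖ζ - a‖ ^ 2) := by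
              apply Real.log_le_log (by positivity)
              nlinarith
            have e6 : Real.log (2 * ‖ζ - a‖ ^ 2) = Real.log 2 + 2 * Real.log ‖ζ - a‖ := by
              rw [Real.log_mul (by norm_num) (by positivity), Real.log_pow]
              norm_num
            have e7 : Real.log (‖ζ - a‖ ^ 2) = 2 * Real.log ‖ζ - a‖ := by
              rw [Real.log_pow]; norm_num
            rw [e7]
            have e9 : 0 ≤ Real.log 2 := Real.log_nonneg (by norm_num)
            have e10 : 0 ≤ Real.log ‖ζ - a‖ := Real.log_nonneg e1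
            rw [hL] at e3
            linarith
          have e8 : |C| + |m| ≤ ε * B ζ := by
            simp only [hB]
            have : (|C| + |m|) / ε ≤ b (‖ζ - a‖ ^ 2) - b (r ^ 2) := by
              have := le_abs_self (b (r^2))
              linarith
            calc |C| + |m| = ε * ((|C| + |m|) / ε) := by field_simp
              _ ≤ ε * (b (‖ζ - a‖ ^ 2) - b (r ^ 2)) := by gcongr
          have := hC ζ
          have := le_abs_self C
          have := neg_abs_le m
          linarith
      -- maximum on the annulus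
      set A : Set ℂ := Metric.closedBall a R ∩ {ζ | r ≤ ‖ζ - a‖} with hA
      have hAc : IsCompact A := by
        apply (isCompact_closedBall a R).inter_right
        exact isClosed_le continuous_const (continuous_norm.comp (continuous_id.sub continuous_const))
      have hBcont : ContinuousOn B A := by
        simp only [hB, hb]
        have hn : Continuous (fun ζ : ℂ => ‖ζ - a‖ ^ 2) := by fun_prop
        apply ContinuousOn.sub _ continuousOn_const
        apply ContinuousOn.sub
        · apply hn.continuousOn.log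
          intro ζ hζ
          have : 0 < ‖ζ - a‖ := lt_of_lt_of_le hr hζ.2
          show ‖ζ - a‖ ^ 2 ≠ 0
          positivity
        · apply continuousOn_const.mul
          apply (hn.add continuous_const).continuousOn.log
          intro ζ _
          show ‖ζ - a‖ ^ 2 + 1 ≠ 0
          positivity
      have hGc : ContinuousOn (fun ζ => f ζ - ε * B ζ) A := hf.continuousOn.sub (continuousOn_const.mul hBcont)
      have hz1A : z1 ∈ A := ⟨by rw [Metric.mem_closedBall, dist_eq_norm]; exact hR1.le, hr1.le⟩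
      obtain ⟨zs, hzs, hmax⟩ := hAc.exists_isMaxOn ⟨z1, hz1A⟩ hGc
      have hGzs : m < f zs - ε * B zs := lt_of_lt_of_le hcon (hmax hz1A)
      have hin1 : r < ‖zs - a‖ := by
        rcases lt_or_eq_of_le (show r ≤ ‖zs - a‖ from hzs.2) with h | h
        · exact h
        · exfalso
          have : B zs = 0 := by simp only [hB]; rw [← h]; ring
          rw [this] at hGzs
          have := hm zs h.symm.le
          linarith
      have hin2 : ‖zs - a‖ < R := by
        by_contra h
        push Not at h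
        have := hR zs h
        linarith
      -- local maximum
      have hlm : IsLocalMax (fun ζ => f ζ - ε * B ζ) zs := by
        have hc : Continuous (fun ζ : ℂ => ‖ζ - a‖) := by fun_prop
        have e1 : ∀ᶠ ζ in 𝓝 zs, r < ‖ζ - a‖ := hc.continuousAt.eventually (Ioi_mem_nhds hin1)
        have e2 : ∀ᶠ ζ in 𝓝 zs, ‖ζ - a‖ < R := hc.continuousAt.eventually (Iio_mem_nhds hin2)
        filter_upwards [e1, e2] with ζ h3 h4
        exact hmax ⟨by rw [Metric.mem_closedBall, dist_eq_norm]; exact h4.le, h3.le⟩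
      set x := (zs - a).re with hx
      set y := (zs - a).im with hy
      have hs : ‖zs - a‖ ^ 2 = x ^ 2 + y ^ 2 := by
        rw [← Complex.normSq_eq_norm_sq, Complex.normSq_apply]; ring
      have hspos : 0 < x ^ 2 + y ^ 2 := by rw [← hs]; have := hr.trans hin1; positivity
      -- the two lines
      have hl1 : (fun t : ℝ => f (zs + (t : ℂ)) - ε * B (zs + (t : ℂ))) = fun t : ℝ => f (zs + (t : ℂ)) +
          ((-ε) * Real.log ((x + t) ^ 2 + y ^ 2) + ((ε / 2) * Real.log ((x + t) ^ 2 + (y ^ 2 + 1)) + ε * b (r^2))) := by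
        ext t
        simp only [hB, hb]
        have : ‖zs + (t : ℂ) - a‖ ^ 2 = (x + t) ^ 2 + y ^ 2 := by
          rw [← Complex.normSq_eq_norm_sq, Complex.normSq_apply]
          simp [hx, hy]
          ring
        rw [this, add_assoc ((x + t) ^ 2)]
        ring
      have hl2 : (fun t : ℝ => f (zs + (t : ℂ) * Complex.I) - ε * B (zs + (t : ℂ) * Complex.I)) =
          fun t : ℝ => f (zs + (t : ℂ) * Complex.I) +
          ((-ε) * Real.log ((y + t) ^ 2 + x ^ 2) + ((ε / 2) * Real.log ((y + t) ^ 2 + (x ^ 2 + 1)) + ε * b (r^2))) := by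
        ext t
        simp only [hB, hb]
        have : ‖zs + (t : ℂ) * Complex.I - a‖ ^ 2 = (y + t) ^ 2 + x ^ 2 := by
          rw [← Complex.normSq_eq_norm_sq, Complex.normSq_apply]
          simp [hx, hy]
          ring
        rw [this, add_assoc ((y + t) ^ 2)]
        ring
      have calc1 : ∀ (F : ℝ → ℝ) (x y : ℝ), ContDiffAt ℝ 2 F 0 → 0 < x ^ 2 + y ^ 2 →
          deriv (deriv (fun t : ℝ => F t + ((-ε) * Real.log ((x + t) ^ 2 + y ^ 2) +
            ((ε / 2) * Real.log ((x + t) ^ 2 + (y ^ 2 + 1)) + ε * b (r^2))))) 0 =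
          deriv (deriv F) 0 + ((-ε) * (2 / (x ^ 2 + y ^ 2) - 4 * x ^ 2 / (x ^ 2 + y ^ 2) ^ 2) +
            (ε / 2) * (2 / (x ^ 2 + (y ^ 2 + 1)) - 4 * x ^ 2 / (x ^ 2 + (y ^ 2 + 1)) ^ 2)) := by
        intro F x y hF hxy
        obtain ⟨c1, d1⟩ := deriv2_log x (y ^ 2) hxy
        obtain ⟨c2, d2⟩ := deriv2_log x (y ^ 2 + 1) (by positivity)
        rw [deriv2_add hF ((contDiffAt_const.mul c1).add ((contDiffAt_const.mul c2).add contDiffAt_const)),
          deriv2_add (contDiffAt_const.mul c1) ((contDiffAt_const.mul c2).add contDiffAt_const),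
          deriv2_add (contDiffAt_const.mul c2) contDiffAt_const, deriv2_const_mul c1, deriv2_const_mul c2, d1, d2]
        simp
      have t1 : deriv (deriv (fun t : ℝ => f (zs + (t : ℂ)) - ε * B (zs + (t : ℂ)))) 0 ≤ 0 := by
        apply second_deriv_nonpos
        · rw [hl1]
          obtain ⟨c1, _⟩ := deriv2_log x (y ^ 2) hspos
          obtain ⟨c2, _⟩ := deriv2_log x (y ^ 2 + 1) (by positivity)
          exact ((h1 zs).add ((contDiffAt_const.mul c1).add ((contDiffAt_const.mul c2).add contDiffAt_const))).continuousAt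
        · have hc : Tendsto (fun t : ℝ => zs + (t : ℂ)) (𝓝 0) (𝓝 zs) := by
            have h3 : ContinuousAt (fun t : ℝ => zs + (t : ℂ)) 0 := by fun_prop
            simpa [ContinuousAt] using h3
          filter_upwards [hc.eventually hlm] with t ht
          simpa using ht
      have t2 : deriv (deriv (fun t : ℝ => f (zs + (t : ℂ) * Complex.I) - ε * B (zs + (t : ℂ) * Complex.I))) 0 ≤ 0 := by
        apply second_deriv_nonpos
        · rw [hl2]
          obtain ⟨c1, _⟩ := deriv2_log y (x ^ 2) (by linarith)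
          obtain ⟨c2, _⟩ := deriv2_log y (x ^ 2 + 1) (by positivity)
          exact ((h2 zs).add ((contDiffAt_const.mul c1).add ((contDiffAt_const.mul c2).add contDiffAt_const))).continuousAt
        · have hc : Tendsto (fun t : ℝ => zs + (t : ℂ) * Complex.I) (𝓝 0) (𝓝 zs) := by
            have h3 : ContinuousAt (fun t : ℝ => zs + (t : ℂ) * Complex.I) 0 := by fun_prop
            simpa [ContinuousAt] using h3
          filter_upwards [hc.eventually hlm] with t ht
          simpa using ht
      rw [hl1, calc1 _ x y (h1 zs) hspos] at t1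
      rw [hl2, calc1 _ y x (h2 zs) (by linarith)] at t2
      have hl := hlap zs
      set s := x ^ 2 + y ^ 2 with hsdef
      have e1 : y ^ 2 + x ^ 2 = s := by rw [hsdef]; ring
      have e2 : x ^ 2 + (y ^ 2 + 1) = s + 1 := by rw [hsdef]; ring
      have e3 : y ^ 2 + (x ^ 2 + 1) = s + 1 := by rw [hsdef]; ring
      rw [e2] at t1
      rw [e1, e3] at t2
      have hsum : (-ε) * (2 / s - 4 * x ^ 2 / s ^ 2) + (ε / 2) * (2 / (s + 1) - 4 * x ^ 2 / (s + 1) ^ 2) +
          ((-ε) * (2 / s - 4 * y ^ 2 / s ^ 2) + (ε / 2) * (2 / (s + 1) - 4 * y ^ 2 / (s + 1) ^ 2)) =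
          2 * ε / (s + 1) ^ 2 := by
        have hy2 : y ^ 2 = s - x ^ 2 := by rw [hsdef]; ring
        rw [hy2]
        have : s ≠ 0 := hspos.ne'
        have : s + 1 ≠ 0 := by positivity
        field_simp
        ring
      have hfin : 0 < 2 * ε / (s + 1) ^ 2 := by positivity
      linarith
    -- let ε → 0
    by_contra hcon
    push Not at hcon
    have hd : 0 < f z1 - m := by linarith
    have h3 := hε ((f z1 - m) / (2 * (|B z1| + 1))) (by positivity)
    have h4 : (f z1 - m) / (2 * (|B z1| + 1)) * B z1 ≤ (f z1 - m) / 2 := by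
      have e1 : B z1 ≤ |B z1| + 1 := (le_abs_self _).trans (by linarith)
      have e2 : 0 < |B z1| + 1 := by positivity
      calc (f z1 - m) / (2 * (|B z1| + 1)) * B z1 ≤ (f z1 - m) / (2 * (|B z1| + 1)) * (|B z1| + 1) := by
            gcongr
        _ = (f z1 - m) / 2 := by field_simp
    linarith
  -- step 2 : let the radius tend to zero
  by_contra hcon
  push Not at hcon
  have hc := Metric.continuous_iff.mp hf a ((f z1 - f a) / 2) (by linarith)
  obtain ⟨δ, hδ, hδb⟩ := hc
  set r := min (δ / 2) (‖z1 - a‖ / 2) with hr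
  have hrpos : 0 < r := lt_min (by positivity) (by positivity)
  have h3 := key r hrpos (lt_of_le_of_lt (min_le_right _ _) (by linarith)) (f a + (f z1 - f a) / 2) (by
    intro ζ hζ
    have h4 : dist ζ a < δ := by
      rw [dist_eq_norm]
      calc ‖ζ - a‖ ≤ r := hζ
        _ ≤ δ / 2 := min_le_left _ _
        _ < δ := by linarith
    have h5 := hδb ζ h4
    rw [Real.dist_eq] at h5
    have := (abs_lt.mp h5).2
    linarith)
  linarith

end Pool.Agent.Lib.MP_425ff5_an
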