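import Mathlib
import Pool.Agent.Lib.MP_425ff5_an.Glue

/-!
No maximal component of the core of a domain in a complex manifold is a single point.

Proof idea.  Suppose the maximal component of `z0` is `{z0}`.  Then every other point `w` of `Ω` is
separated from `z0` by some function of `𝓕(Ω)` (for `w` outside the core one modifies a function
that is strictly plurisubharmonic at `w` near `w`).  On a small coordinate sphere `S` around `z0`, a
compactness argument gives `Φ, V ∈ 𝓕(Ω)` and `η > 0` with `V(z0) < Φ(z0)` and `V > Φ + η|z-z0|²` on
`S`.  Gluing `V` with `Φ + η|z-z0|²` by a smooth convex function gives a function of `𝓕(Ω)` which is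
strictly plurisubharmonic at `z0`, so `z0` is not in the core.
-/

open scoped Manifold ContDiff Topology
open Set Filter

namespace Pool.Agent.Lib.MP_425ff5_an

/-- **Result.**  Let `M` be a (Hausdorff) complex manifold of dimension `n`, `Ω ⊆ M` a domain and
`K` a nonempty maximal component of the core of `Ω`.  Then `K` contains at least two points. -/
theorem nontrivial_of_maximal (n : ℕ) (M : Type*) [TopologicalSpace M] [T2Space M] [ChartedSpace (Cn n) M]
    [IsManifold 𝓘(ℂ, Cn n) ω M] (Ω : Set M) (hΩ : IsOpen Ω) (_hconn : IsConnected Ω)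
    (K : Set M) (hK : IsMaximalComponent n Ω K) (hne : K.Nonempty) : K.Nontrivial := by
  by_contra hcon
  rw [Set.not_nontrivial_iff] at hcon
  obtain ⟨z0, hz0⟩ := hne
  have hKeq : K = {z0} := hcon.eq_singleton_of_mem hz0
  have hmem : K ∈ constFamily n Ω := hK.prop
  have hcore : z0 ∈ core n Ω := hmem.1 hz0
  refine not_core_of_separated hΩ hcore.1 ?_ hcore
  intro w hw hwne
  by_cases hwc : w ∈ core n Ω
  · by_contra hall
    push Not at hall
    have h2 : ({z0, w} : Set M) ∈ constFamily n Ω := by
      refine ⟨?_, ?_⟩
      · rintro x (rfl | rfl)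
        · exact hcore
        · exact hwc
      · intro φ hφ x hx y hy
        have h3 := hall φ hφ
        rcases hx with rfl | rfl <;> rcases hy with rfl | rfl
        · rfl
        · exact h3.symm
        · exact h3
        · rfl
    have hsub : K ≤ ({z0, w} : Set M) := by
      rw [hKeq]
      intro x hx
      rw [mem_singleton_iff] at hx
      rw [hx]
      exact mem_insert z0 _
    have h4 : ({z0, w} : Set M) ≤ K := hK.le_of_ge h2 hsub
    have h5 : w ∈ K := h4 (mem_insert_of_mem z0 (mem_singleton w))
    rw [hKeq, mem_singleton_iff] at h5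
    exact hwne h5
  · have : ∃ φ : M → ℝ, IsAdmissible n Ω φ ∧ StrictPshAt n φ w := by
      by_contra hno
      push Not at hno
      exact hwc ⟨hw, hno⟩
    obtain ⟨φ, hφ, hs⟩ := this
    exact separate_off_core hΩ hw hwne hφ hs

end Pool.Agent.Lib.MP_425ff5_an
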