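import Mathlib
import Pool.Agent.Lib.MP_425ff5_an.Glue
import Pool.Agent.Lib.MP_425ff5_an.Liouville

/-!
A domain `Ω` in the Stein manifold `ℂ²` whose core has a nonempty relatively compact maximal component.

`Ω` is the Hartogs domain `{(z,w) : |w| < 1, |z| ∏_j (|w - a_j|/2)^{2^{-j}} < 1}` with `a_j = 2^{-(j+1)}`.
It contains the complex lines `ℂ × {a_j}`, on which every function of `𝓕(Ω)` is constant by Liouville's
theorem.  Letting `a_j → 0` shows that every function of `𝓕(Ω)` is constant on `Ω ∩ {w = 0}`, which is a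
bounded disc.  The function `|w|²` separates this disc from all other points of `Ω`.
-/

open scoped Manifold ContDiff Topology
open Set Filter

namespace Pool.Agent.Lib.MP_425ff5_an.Hartogs

/-- the points `a_j = 2^{-(j+1)}` -/
noncomputable def aa (j : ℕ) : ℝ := (1 / 2 : ℝ) ^ (j + 1)

/-- partial products `Q_m(w) = ∏_{j<m} (|w - a_j|/2)^{2^{-j}}` -/
noncomputable def QQ (m : ℕ) (w : ℂ) : ℝ :=
  ∏ j ∈ Finset.range m, (‖w - (aa j : ℂ)‖ / 2) ^ ((1 / 2 : ℝ) ^ j)

/-- the Hartogs domain -/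
def Om : Set (Cn 2) := {p | ‖p 1‖ < 1 ∧ ∃ m : ℕ, ‖p 0‖ * QQ m (p 1) < 1}

/-- the slice `w = 0` of the Hartogs domain -/
def slice : Set (Cn 2) := {p | p ∈ Om ∧ p 1 = 0}

theorem aa_pos (j : ℕ) : 0 < aa j := by unfold aa; positivity

theorem aa_lt_one (j : ℕ) : aa j < 1 := by
  unfold aa
  exact pow_lt_one₀ (by norm_num) (by norm_num) (by omega)

theorem QQ_nonneg (m : ℕ) (w : ℂ) : 0 ≤ QQ m w := by
  unfold QQ
  exact Finset.prod_nonneg (fun j _ => by positivity)

theorem QQ_continuous (m : ℕ) : Continuous (QQ m) := by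
  unfold QQ
  apply continuous_finsetProd
  intro j _
  apply Continuous.rpow_const
  · fun_prop
  · intro w
    right
    positivity

theorem QQ_aa (j : ℕ) : QQ (j + 1) (aa j : ℂ) = 0 := by
  unfold QQ
  apply Finset.prod_eq_zero (i := j) (by simp)
  rw [sub_self, norm_zero, zero_div]
  exact Real.zero_rpow (by positivity)

theorem QQ_zero (m : ℕ) : QQ m 0 = (1 / 2 : ℝ) ^ ((6 : ℝ) - (2 * m + 6) / 2 ^ m) := by
  induction m with
  | zero => simp [QQ]
  | succ m ih =>
    have h1 : QQ (m + 1) 0 = QQ m 0 * (‖(0 : ℂ) - (aa m : ℂ)‖ / 2) ^ ((1 / 2 : ℝ) ^ m) := by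
      unfold QQ
      rw [Finset.prod_range_succ]
    have h2 : ‖(0 : ℂ) - (aa m : ℂ)‖ / 2 = (1 / 2 : ℝ) ^ ((m : ℝ) + 2) := by
      rw [zero_sub, norm_neg, Complex.norm_real, Real.norm_eq_abs, abs_of_pos (aa_pos m)]
      unfold aa
      have : ((m : ℝ) + 2) = ((m + 2 : ℕ) : ℝ) := by push_cast; ring
      rw [this, Real.rpow_natCast]
      ring
    rw [h1, ih, h2, ← Real.rpow_mul (by norm_num), ← Real.rpow_add (by norm_num)]
    congr 1
    rw [one_div, inv_pow]
    push_cast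
    have : (2:ℝ) ^ m ≠ 0 := by positivity
    field_simp
    ring

theorem QQ_zero_ge (m : ℕ) : 1 / 64 ≤ QQ m 0 := by
  rw [QQ_zero]
  have h1 : (1 / 64 : ℝ) = (1 / 2 : ℝ) ^ (6 : ℝ) := by
    have : (6 : ℝ) = ((6 : ℕ) : ℝ) := by norm_num
    rw [this, Real.rpow_natCast]; norm_num
  rw [h1]
  apply Real.rpow_le_rpow_of_exponent_ge (by norm_num) (by norm_num)
  have : 0 ≤ (2 * (m : ℝ) + 6) / 2 ^ m := by positivity
  linarith

theorem Om_isOpen : IsOpen Om := by
  have h0 : Continuous (fun p : Cn 2 => p 0) := by fun_prop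
  have h1 : Continuous (fun p : Cn 2 => p 1) := by fun_prop
  have : Om = {p : Cn 2 | ‖p 1‖ < 1} ∩ ⋃ m : ℕ, {p : Cn 2 | ‖p 0‖ * QQ m (p 1) < 1} := by
    ext p
    simp [Om]
  rw [this]
  apply IsOpen.inter
  · exact isOpen_lt h1.norm continuous_const
  · apply isOpen_iUnion
    intro m
    exact isOpen_lt (h0.norm.mul ((QQ_continuous m).comp h1)) continuous_const

/-- the point `(z,w)` -/
noncomputable def pt (z w : ℂ) : Cn 2 := WithLp.toLp 2 ![z, w]

@[simp] theorem pt_zero (z w : ℂ) : pt z w 0 = z := by simp [pt]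
@[simp] theorem pt_one (z w : ℂ) : pt z w 1 = w := by simp [pt]

theorem pt_eta (p : Cn 2) : pt (p 0) (p 1) = p := by
  ext i
  fin_cases i <;> simp [pt]

theorem pt_mem_of_zero {w : ℂ} (hw : ‖w‖ < 1) : pt 0 w ∈ Om := by
  refine ⟨by simpa using hw, 0, ?_⟩
  simp

theorem line_mem (z : ℂ) (j : ℕ) : pt z (aa j : ℂ) ∈ Om := by
  refine ⟨?_, j + 1, ?_⟩
  · rw [pt_one, Complex.norm_real, Real.norm_eq_abs, abs_of_pos (aa_pos j)]
    exact aa_lt_one j
  · rw [pt_one, QQ_aa]
    simp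

theorem Om_isConnected : IsConnected Om := by
  refine ⟨⟨pt 0 0, pt_mem_of_zero (by simp)⟩, ?_⟩
  apply isPreconnected_of_forall (pt 0 0)
  intro p hp
  -- the two segments
  refine ⟨segment ℝ p (pt 0 (p 1)) ∪ segment ℝ (pt 0 (p 1)) (pt 0 0), ?_, ?_, ?_, ?_⟩
  · apply union_subset
    · rintro q ⟨a, b, ha, hb, hab, rfl⟩
      obtain ⟨h1, m, hm⟩ := hp
      have e1 : (a • p + b • pt 0 (p 1)) 1 = p 1 := by
        simp only [PiLp.add_apply, PiLp.smul_apply, pt_one]
        rw [← add_smul, hab, one_smul]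
      have e0 : (a • p + b • pt 0 (p 1)) 0 = a • p 0 := by
        simp
      refine ⟨by rw [e1]; exact h1, m, ?_⟩
      rw [e1, e0, norm_smul, Real.norm_eq_abs, abs_of_nonneg ha]
      have h2 := QQ_nonneg m (p 1)
      have h3 := norm_nonneg (p 0)
      have h4 : a ≤ 1 := by linarith
      have h5 : a * (‖p 0‖ * QQ m (p 1)) ≤ 1 * (‖p 0‖ * QQ m (p 1)) := by
        apply mul_le_mul_of_nonneg_right h4 (by positivity)
      linarith [mul_assoc a ‖p 0‖ (QQ m (p 1))]
    · rintro q ⟨a, b, ha, hb, hab, rfl⟩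
      have e1 : a • pt 0 (p 1) + b • pt 0 0 = pt 0 (a • p 1) := by
        ext i
        fin_cases i <;> simp [pt]
      rw [e1]
      apply pt_mem_of_zero
      rw [norm_smul, Real.norm_eq_abs, abs_of_nonneg ha]
      have h1 := hp.1
      have h3 := norm_nonneg (p 1)
      have h4 : a ≤ 1 := by linarith
      nlinarith
  · right; exact right_mem_segment ℝ _ _
  · left; exact left_mem_segment ℝ _ _
  · apply IsPreconnected.union (pt 0 (p 1)) (right_mem_segment ℝ _ _) (left_mem_segment ℝ _ _)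
    · exact (convex_segment _ _).isPreconnected
    · exact (convex_segment _ _).isPreconnected

/-! ### unfolding the definitions in the model space -/

theorem smoothAt_iff (φ : Cn 2 → ℝ) (z : Cn 2) : SmoothAt 2 φ z ↔ ContDiffAt ℝ ∞ φ z := by
  constructor
  · intro h
    have := h (OpenPartialHomeomorph.refl (Cn 2)) (by simp [chartedSpaceSelf_atlas]) (by simp)
    simpa using this
  · intro h e he hz
    rw [chartedSpaceSelf_atlas] at he
    subst he
    simpa using h

theorem pshAt_iff (φ : Cn 2 → ℝ) (z : Cn 2) : PshAt 2 φ z ↔ ∀ v, 0 ≤ levi φ z v := by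
  constructor
  · intro h
    have := h (OpenPartialHomeomorph.refl (Cn 2)) (by simp [chartedSpaceSelf_atlas]) (by simp)
    simpa using this
  · intro h e he hz
    rw [chartedSpaceSelf_atlas] at he
    subst he
    simpa using h

theorem strictPshAt_iff (φ : Cn 2 → ℝ) (z : Cn 2) : StrictPshAt 2 φ z ↔ ∀ v, v ≠ 0 → 0 < levi φ z v := by
  constructor
  · intro h
    have := h (OpenPartialHomeomorph.refl (Cn 2)) (by simp [chartedSpaceSelf_atlas]) (by simp)
    simpa using this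
  · intro h e he hz
    rw [chartedSpaceSelf_atlas] at he
    subst he
    simpa using h

/-- second derivative along a line -/
theorem second_deriv_line {φ : Cn 2 → ℝ} {p : Cn 2} (hφ : ContDiffAt ℝ 2 φ p) (v : Cn 2) :
    ContDiffAt ℝ 2 (fun t : ℝ => φ (p + t • v)) 0 ∧
    deriv (deriv (fun t : ℝ => φ (p + t • v))) 0 = fderiv ℝ (fderiv ℝ φ) p v v := by
  have hline : ∀ t : ℝ, HasDerivAt (fun t : ℝ => p + t • v) v t := by
    intro t
    have := ((hasDerivAt_id t).smul_const v).const_add p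
    simpa using this
  have hlc : ContDiff ℝ 2 (fun t : ℝ => p + t • v) := by fun_prop
  have h0 : (fun t : ℝ => p + t • v) 0 = p := by simp
  refine ⟨?_, ?_⟩
  · apply ContDiffAt.comp (g := φ) (f := fun t : ℝ => p + t • v) 0 _ hlc.contDiffAt
    simpa using hφ
  have hev : ∀ᶠ t in 𝓝 (0:ℝ), DifferentiableAt ℝ φ (p + t • v) := by
    have h1 := eventually_diff hφ
    have h2 : Tendsto (fun t : ℝ => p + t • v) (𝓝 0) (𝓝 p) := by
      have := hlc.continuous.continuousAt (x := (0:ℝ))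
      simpa [ContinuousAt] using this
    exact h2.eventually h1
  have h1 : deriv (fun t : ℝ => φ (p + t • v)) =ᶠ[𝓝 0] fun t => fderiv ℝ φ (p + t • v) v := by
    filter_upwards [hev] with t ht
    exact (ht.hasFDerivAt.comp_hasDerivAt t (hline t)).deriv
  rw [h1.deriv_eq]
  have h2 : HasFDerivAt (fderiv ℝ φ) (fderiv ℝ (fderiv ℝ φ) p) ((fun t : ℝ => p + t • v) 0) := by
    rw [h0]; exact (contDiffAt_fderiv hφ).hasFDerivAt
  have h3 : HasDerivAt (fun t : ℝ => fderiv ℝ φ (p + t • v)) (fderiv ℝ (fderiv ℝ φ) p v) 0 :=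
    h2.comp_hasDerivAt 0 (hline 0)
  have h4 := h3.clm_apply (hasDerivAt_const 0 v)
  simpa using h4.deriv

theorem adm_c2 {φ : Cn 2 → ℝ} (hφ : IsAdmissible 2 Om φ) {p : Cn 2} (hp : p ∈ Om) : ContDiffAt ℝ 2 φ p :=
  ((smoothAt_iff φ p).mp (hφ.smooth p hp)).of_le ENat.LEInfty.out

/-- functions of `𝓕(Ω)` are constant on the complex lines `w = a_j` -/
theorem const_on_lines {φ : Cn 2 → ℝ} (hφ : IsAdmissible 2 Om φ) (j : ℕ) (z z' : ℂ) :
    φ (pt z (aa j : ℂ)) = φ (pt z' (aa j : ℂ)) := by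
  obtain ⟨C, hC⟩ := hφ.bdd
  have hl1 : ∀ (z : ℂ) (t : ℝ), pt (z + (t : ℂ)) (aa j : ℂ) = pt z (aa j : ℂ) + t • pt 1 0 := by
    intro z t
    ext i
    fin_cases i <;> simp [pt]
  have hl2 : ∀ (z : ℂ) (t : ℝ), pt (z + (t : ℂ) * Complex.I) (aa j : ℂ) =
      pt z (aa j : ℂ) + t • (Complex.I • pt 1 0) := by
    intro z t
    ext i
    fin_cases i <;> simp [pt]
  apply liouville (fun z => φ (pt z (aa j : ℂ))) _ _ _ _ C (fun z => hC _ (line_mem z j)) z z'
  · rw [continuous_iff_continuousAt]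
    intro z
    have h1 : ContinuousAt φ (pt z (aa j : ℂ)) := (adm_c2 hφ (line_mem z j)).continuousAt
    have h2 : Continuous (fun z : ℂ => pt z (aa j : ℂ)) := by
      unfold pt
      fun_prop
    exact ContinuousAt.comp (f := fun z : ℂ => pt z (aa j : ℂ)) h1 h2.continuousAt
  · intro z
    simp only [hl1]
    exact (second_deriv_line (adm_c2 hφ (line_mem z j)) _).1
  · intro z
    simp only [hl2]
    exact (second_deriv_line (adm_c2 hφ (line_mem z j)) _).1
  · intro z
    simp only [hl1, hl2]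
    rw [(second_deriv_line (adm_c2 hφ (line_mem z j)) _).2, (second_deriv_line (adm_c2 hφ (line_mem z j)) _).2]
    exact (pshAt_iff φ _).mp (hφ.psh _ (line_mem z j)) (pt 1 0)

theorem aa_tendsto : Tendsto (fun j : ℕ => (aa j : ℂ)) atTop (𝓝 0) := by
  have h1 : Tendsto (fun j : ℕ => aa j) atTop (𝓝 0) := by
    unfold aa
    exact (tendsto_pow_atTop_nhds_zero_of_lt_one (by norm_num) (by norm_num)).comp (tendsto_add_atTop_nat 1)
  have h2 := (Complex.continuous_ofReal.tendsto 0).comp h1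
  rw [Complex.ofReal_zero] at h2
  exact h2

theorem pt_tendsto (z : ℂ) : Tendsto (fun j : ℕ => pt z (aa j : ℂ)) atTop (𝓝 (pt z 0)) := by
  have h2 : Continuous (fun w : ℂ => pt z w) := by
    unfold pt
    fun_prop
  exact (h2.tendsto 0).comp aa_tendsto

/-- functions of `𝓕(Ω)` are constant on the slice `w = 0` -/
theorem const_on_slice {φ : Cn 2 → ℝ} (hφ : IsAdmissible 2 Om φ) {z : ℂ} (hz : pt z 0 ∈ Om) :
    φ (pt z 0) = φ (pt 0 0) := by
  have h1 : Tendsto (fun j : ℕ => φ (pt z (aa j : ℂ))) atTop (𝓝 (φ (pt z 0))) :=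
    ((adm_c2 hφ hz).continuousAt.tendsto).comp (pt_tendsto z)
  have h2 : Tendsto (fun j : ℕ => φ (pt 0 (aa j : ℂ))) atTop (𝓝 (φ (pt 0 0))) :=
    ((adm_c2 hφ (pt_mem_of_zero (by simp))).continuousAt.tendsto).comp (pt_tendsto 0)
  have h3 : (fun j : ℕ => φ (pt z (aa j : ℂ))) = fun j : ℕ => φ (pt 0 (aa j : ℂ)) :=
    funext (fun j => const_on_lines hφ j z 0)
  rw [h3] at h1
  exact tendsto_nhds_unique h1 h2

/-- `|w|²` belongs to `𝓕(Ω)` -/
theorem wsq_admissible : IsAdmissible 2 Om (fun p => ‖p 1‖ ^ 2) := by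
  have hcd : ContDiff ℝ ∞ (fun p : Cn 2 => ‖p 1‖ ^ 2) := by
    have : ContDiff ℝ ∞ (fun p : Cn 2 => p 1) := by fun_prop
    exact this.norm_sq ℝ
  refine ⟨fun z _ => (smoothAt_iff _ z).mpr hcd.contDiffAt, fun z _ => ?_, ⟨1, fun z hz => ?_⟩⟩
  · rw [pshAt_iff]
    intro v
    have h2 : ContDiffAt ℝ 2 (fun p : Cn 2 => ‖p 1‖ ^ 2) z := hcd.contDiffAt.of_le ENat.LEInfty.out
    have key : ∀ u : Cn 2, 0 ≤ fderiv ℝ (fderiv ℝ (fun p : Cn 2 => ‖p 1‖ ^ 2)) z u u := by
      intro u
      rw [← (second_deriv_line h2 u).2]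
      -- the function is a quadratic polynomial in `t`
      set A := ‖u 1‖ ^ 2 with hA
      set Bq := 2 * ((z 1).re * (u 1).re + (z 1).im * (u 1).im) with hB
      have h3 : (fun t : ℝ => ‖(z + t • u) 1‖ ^ 2) = fun t : ℝ => ‖z 1‖ ^ 2 + Bq * t + A * t ^ 2 := by
        ext t
        rw [hA, hB, ← Complex.normSq_eq_norm_sq, ← Complex.normSq_eq_norm_sq, ← Complex.normSq_eq_norm_sq,
          Complex.normSq_apply, Complex.normSq_apply, Complex.normSq_apply]
        simp
        ring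
      rw [h3]
      have h4 : deriv (fun t : ℝ => ‖z 1‖ ^ 2 + Bq * t + A * t ^ 2) = fun t => Bq + A * (2 * t) := by
        ext t
        have e1 : HasDerivAt (fun t : ℝ => ‖z 1‖ ^ 2 + Bq * t + A * t ^ 2) (0 + Bq * 1 + A * (2 * t)) t := by
          apply HasDerivAt.add
          · apply HasDerivAt.add (hasDerivAt_const t _)
            exact (hasDerivAt_id t).const_mul Bq
          · have := (hasDerivAt_pow 2 t).const_mul A
            simpa using this
        rw [e1.deriv]; ring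
      rw [h4]
      have h5 : HasDerivAt (fun t : ℝ => Bq + A * (2 * t)) (A * 2) 0 := by
        have := (((hasDerivAt_id (0:ℝ)).const_mul 2).const_mul A).const_add Bq
        simpa using this
      rw [h5.deriv]
      positivity
    unfold levi
    exact add_nonneg (key v) (key _)
  · have := hz.1
    have h0 := norm_nonneg (z 1)
    show ‖z 1‖ ^ 2 ≤ 1
    nlinarith

theorem slice_subset_core : slice ⊆ core 2 Om := by
  rintro p ⟨hp, hp1⟩
  refine ⟨hp, fun φ hφ hs => ?_⟩
  have h1 := (strictPshAt_iff φ p).mp hs (pt 1 0) (by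
    intro h
    have := congrArg (fun q : Cn 2 => q 0) h
    simp at this)
  have hpe : p = pt (p 0) 0 := by
    rw [← hp1, pt_eta]
  have hzero : ∀ c : ℂ, fderiv ℝ (fderiv ℝ φ) p (pt c 0) (pt c 0) = 0 := by
    intro c
    rw [← (second_deriv_line (adm_c2 hφ hp) (pt c 0)).2]
    have hev : (fun t : ℝ => φ (p + t • pt c 0)) =ᶠ[𝓝 0] fun _ => φ (pt 0 0) := by
      have hc : Tendsto (fun t : ℝ => p + t • pt c 0) (𝓝 0) (𝓝 p) := by
        have h3 : ContinuousAt (fun t : ℝ => p + t • pt c 0) 0 := by fun_prop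
        simpa [ContinuousAt] using h3
      filter_upwards [hc.eventually (Om_isOpen.mem_nhds hp)] with t ht
      have e1 : p + t • pt c 0 = pt (p 0 + t • c) 0 := by
        rw [hpe]
        ext i
        fin_cases i <;> simp [pt]
      rw [e1] at ht ⊢
      exact const_on_slice hφ ht
    rw [hev.deriv.deriv_eq]
    simp
  have h2 : levi φ p (pt 1 0) = 0 := by
    unfold levi
    have e2 : Complex.I • pt 1 0 = pt Complex.I 0 := by
      ext i
      fin_cases i <;> simp [pt]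
    rw [e2, hzero, hzero, add_zero]
  rw [h2] at h1
  exact lt_irrefl _ h1

theorem slice_maximal : IsMaximalComponent 2 Om slice := by
  refine ⟨⟨slice_subset_core, ?_⟩, ?_⟩
  · intro φ hφ x hx y hy
    have hx' : x = pt (x 0) 0 := by rw [← hx.2, pt_eta]
    have hy' : y = pt (y 0) 0 := by rw [← hy.2, pt_eta]
    have h1 := hx.1
    have h2 := hy.1
    rw [hx'] at h1 ⊢
    rw [hy'] at h2 ⊢
    rw [const_on_slice hφ h1, const_on_slice hφ h2]
  · rintro K hK hsub p hp
    have h0 : pt 0 0 ∈ slice := ⟨pt_mem_of_zero (by simp), by simp⟩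
    have h1 := hK.2 _ wsq_admissible p hp (pt 0 0) (hsub h0)
    have h2 : ‖p 1‖ ^ 2 = 0 := by simpa using h1
    have h3 : p 1 = 0 := by
      have : ‖p 1‖ = 0 := by nlinarith [norm_nonneg (p 1)]
      exact norm_eq_zero.mp this
    exact ⟨(hK.1 hp).1, h3⟩

theorem slice_bounded : slice ⊆ Metric.closedBall 0 64 := by
  rintro p ⟨⟨_, m, hm⟩, hp1⟩
  rw [hp1] at hm
  have h1 := QQ_zero_ge m
  have h2 : ‖p 0‖ < 64 := by
    by_contra hcon
    push Not at hcon
    have : (64:ℝ) * (1/64) ≤ ‖p 0‖ * QQ m 0 := by gcongr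
    linarith
  rw [mem_closedBall_zero_iff, EuclideanSpace.norm_eq, Fin.sum_univ_two, hp1]
  simp only [norm_zero]
  rw [show ‖p 0‖ ^ 2 + (0:ℝ) ^ 2 = ‖p 0‖ ^ 2 by ring, Real.sqrt_sq (norm_nonneg _)]
  exact h2.le

/-- **Result.**  In the Stein manifold `ℂ²` there is a domain `Ω` whose core has a nonempty maximal
component `K` that is relatively compact in `ℂ²`. -/
theorem exists_bounded_component : ∃ Ω : Set (Cn 2), IsOpen Ω ∧ IsConnected Ω ∧
    ∃ K : Set (Cn 2), IsMaximalComponent 2 Ω K ∧ K.Nonempty ∧ IsCompact (closure K) := by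
  refine ⟨Om, Om_isOpen, Om_isConnected, slice, slice_maximal,
    ⟨pt 0 0, pt_mem_of_zero (by simp), by simp⟩, ?_⟩
  exact (isCompact_closedBall (0 : Cn 2) 64).of_isClosed_subset isClosed_closure
    (closure_minimal slice_bounded Metric.isClosed_closedBall)

end Pool.Agent.Lib.MP_425ff5_an.Hartogs
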